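import Pool.Agent.Helper15.SI.Defs
import Pool.Agent.Helper32.SW.Pt
import Pool.Agent.Helper32.SW.Main
import Pool.Agent.Helper32.SW.Cls

/-! Project SI, leaf P7: the finite inequality. -/

namespace Pool.Agent.Helper15.SI

open Finset Filter Topology Pool.Agent.Helper10.SQ Pool.Agent.Helper10.P4
open scoped ArithmeticFunction.Moebius

/-- P1a as a hypothesis -/
def HPal : Prop := ∀ l N : ℕ, 1 ≤ l → (IsPalD l N ↔ Sy l N ∧ 10 ^ (l - 1) ≤ N)

/-- P1b as a hypothesis -/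
def HPre : Prop := ∀ l k w : ℕ, w < 10 ^ k → ∃ W : ℕ, ∀ N : ℕ,
    (Sy (l + 2 * k) N ∧ N / 10 ^ (l + k) = w) ↔ ∃ M, Sy l M ∧ N = W + 10 ^ k * M

/-- last digits as a hypothesis -/
def HLast : Prop := ∀ l k w N : ℕ, 2 ≤ k → w < 10 ^ k → Sy (l + 2 * k) N →
    N / 10 ^ (l + k) = w → N % 100 = lastTwo k w

/-- the palindromes with `2 * n + 1` digits which begin with the `k` digits `w` -/
noncomputable def PW (n k w : ℕ) : Finset ℕ := (Pal n).filter (fun N => N / 10 ^ (2 * n + 1 - k) = w)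

lemma exists_class (k W r M : ℕ) (hM : M.Coprime 10) :
    ∃ b, W + 10 ^ k * b ≡ r [MOD M] := by
  have hco : (10 ^ k).Coprime M := (Nat.Coprime.pow_left k hM.symm)
  obtain ⟨x, hx1, hx2⟩ := Nat.chineseRemainder hco W r
  rcases Nat.eq_zero_or_pos M with h0 | h0
  · rw [h0] at hM
    simp at hM
  · have h1 : W ≤ x + 10 ^ k * M * W := by
      have : 1 ≤ 10 ^ k * M := Nat.mul_pos (by positivity) h0
      nlinarith
    have h2 : x + 10 ^ k * M * W ≡ W [MOD 10 ^ k] := by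
      have h3 : 10 ^ k * M * W ≡ 0 [MOD 10 ^ k] :=
        (Nat.modEq_zero_iff_dvd).2 ⟨M * W, by ring⟩
      have := hx1.add h3
      rwa [add_zero] at this
    have h3 : 10 ^ k ∣ x + 10 ^ k * M * W - W := (Nat.modEq_iff_dvd' h1).1 h2.symm
    obtain ⟨b, hb⟩ := h3
    refine ⟨b, ?_⟩
    have h4 : W + 10 ^ k * b = x + 10 ^ k * M * W := by omega
    rw [h4]
    have h5 : 10 ^ k * M * W ≡ 0 [MOD M] := (Nat.modEq_zero_iff_dvd).2 ⟨10 ^ k * W, by ring⟩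
    have := hx2.add h5
    rwa [add_zero] at this

lemma mem_PW (hpal : HPal) (n k w : ℕ) (hk : 1 ≤ k) (hkn : k ≤ n) (hw1 : 10 ^ (k - 1) ≤ w) (N : ℕ) :
    N ∈ PW n k w ↔ Sy ((2 * (n - k) + 1) + 2 * k) N ∧ N / 10 ^ ((2 * (n - k) + 1) + k) = w := by
  have e1 : (2 * (n - k) + 1) + 2 * k = 2 * n + 1 := by omega
  have e2 : (2 * (n - k) + 1) + k = 2 * n + 1 - k := by omega
  rw [e1, e2]
  unfold PW
  rw [mem_filter, mem_Pal, hpal (2 * n + 1) N (by omega)]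
  constructor
  · rintro ⟨⟨h1, -⟩, h2⟩
    exact ⟨h1, h2⟩
  · rintro ⟨h1, h2⟩
    refine ⟨⟨h1, ?_⟩, h2⟩
    rw [Nat.add_sub_cancel]
    have h3 : w * 10 ^ (2 * n + 1 - k) ≤ N := by
      rw [← h2]
      exact Nat.div_mul_le_self _ _
    calc 10 ^ (2 * n) = 10 ^ (k - 1) * 10 ^ (2 * n + 1 - k) := by
          rw [← pow_add]
          congr 1
          omega
      _ ≤ w * 10 ^ (2 * n + 1 - k) := Nat.mul_le_mul_right _ hw1
      _ ≤ N := h3

/-- palindromes with a prefix in a residue class -/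
theorem pw_count (hpal : HPal) (hpre : HPre) (n k w : ℕ) (hk : 1 ≤ k) (hkn : k ≤ n)
    (hw1 : 10 ^ (k - 1) ≤ w) (hw : w < 10 ^ k) (M r : ℕ) (hM : M.Coprime 10) :
    ∃ b, ((PW n k w).filter (fun N => N ≡ r [MOD M])).card = sc (n - k) M b := by
  classical
  obtain ⟨W, hW⟩ := hpre (2 * (n - k) + 1) k w hw
  obtain ⟨b, hb⟩ := exists_class k W r M hM
  refine ⟨b, ?_⟩
  unfold sc
  have hinj : Function.Injective (fun x : ℕ => W + 10 ^ k * x) := by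
    intro x y hxy
    have h1 : 10 ^ k * x = 10 ^ k * y := by
      have : W + 10 ^ k * x = W + 10 ^ k * y := hxy
      omega
    exact Nat.eq_of_mul_eq_mul_left (by positivity) h1
  rw [← card_image_of_injective ((SS (2 * (n - k) + 1)).filter (fun x => x ≡ b [MOD M])) hinj]
  congr 1
  have hco : Nat.gcd M (10 ^ k) = 1 := Nat.Coprime.pow_right k hM
  have hiff : ∀ x : ℕ, W + 10 ^ k * x ≡ r [MOD M] ↔ x ≡ b [MOD M] := by
    intro x
    constructor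
    · intro h
      have h1 : W + 10 ^ k * x ≡ W + 10 ^ k * b [MOD M] := h.trans hb.symm
      have h2 : 10 ^ k * x ≡ 10 ^ k * b [MOD M] := Nat.ModEq.add_left_cancel' W h1
      exact Nat.ModEq.cancel_left_of_coprime hco h2
    · intro h
      exact ((h.mul_left (10 ^ k)).add_left W).trans hb
  ext N
  rw [mem_filter, mem_PW hpal n k w hk hkn hw1, hW, mem_image]
  constructor
  · rintro ⟨⟨x, hx, rfl⟩, h2⟩
    refine ⟨x, ?_, rfl⟩
    rw [mem_filter]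
    refine ⟨?_, (hiff x).1 h2⟩
    unfold SS
    rw [mem_filter, mem_range]
    exact ⟨hx.1, hx⟩
  · rintro ⟨x, hx, rfl⟩
    rw [mem_filter] at hx
    unfold SS at hx
    rw [mem_filter] at hx
    exact ⟨⟨x, hx.1.2, rfl⟩, (hiff x).2 hx.2⟩

lemma swap_sum (P R : Finset ℕ) (f : ℕ → ℝ) :
    ∑ N ∈ P, ∑ s ∈ R.filter (fun s => s.Coprime 10 ∧ s ^ 2 ∣ N), f s =
      ∑ s ∈ R.filter (fun s => s.Coprime 10), f s * ((P.filter (fun N => s ^ 2 ∣ N)).card : ℝ) := by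
  calc ∑ N ∈ P, ∑ s ∈ R.filter (fun s => s.Coprime 10 ∧ s ^ 2 ∣ N), f s =
        ∑ N ∈ P, ∑ s ∈ R.filter (fun s => s.Coprime 10), (if s ^ 2 ∣ N then f s else 0) := by
        refine sum_congr rfl fun N _ => ?_
        rw [← Finset.filter_filter, Finset.sum_filter]
    _ = ∑ s ∈ R.filter (fun s => s.Coprime 10), ∑ N ∈ P, (if s ^ 2 ∣ N then f s else 0) :=
        sum_comm
    _ = _ := by
        refine sum_congr rfl fun s _ => ?_
        rw [← Finset.sum_filter, sum_const, nsmul_eq_mul, mul_comm]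

open Classical in
/-- the finite inequality -/
theorem main_ineq (hpal : HPal) (hpre : HPre) (hlast : HLast) (n k w q a Z t : ℕ) (hk : 2 ≤ k)
    (hkn : k ≤ n) (hw1 : 10 ^ (k - 1) ≤ w) (hw : w < 10 ^ k)
    (h4 : ¬ 4 ∣ lastTwo k w) (h25 : ¬ 25 ∣ lastTwo k w) (hq1 : 1 ≤ q) (hq : q.Coprime 10)
    (ha : a.Coprime q) (hZ : 1 ≤ Z) : ∃ b b' : ℕ → ℕ,
    |(((PW n k w).filter (fun N => N ≡ a [MOD q] ∧ Squarefree N)).card : ℝ) -
      25 / (3 * Real.pi ^ 2) * ((10 : ℝ) ^ (n - k + 1) / (q : ℝ)) *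
        ∏ p ∈ q.primeFactors, (1 - 1 / (p : ℝ) ^ 2)⁻¹| ≤
    (∑ d ∈ (Icc 1 Z).filter (fun d => d.Coprime 10 ∧ d.Coprime q),
      |((sc (n - k) (q * d ^ 2) (b d) : ℕ) : ℝ) - (10 : ℝ) ^ (n - k + 1) / ((q : ℝ) * (d : ℝ) ^ 2)|) +
    (10 : ℝ) ^ (n - k + 1) / (q : ℝ) * (2 / (Z : ℝ)) +
    (∑ s ∈ (Ioc Z (10 ^ t)).filter (fun s : ℕ => s.Coprime 10),
        (1 + (((Icc 1 Z).filter (fun d => d ∣ s)).card : ℝ)) *
          ((sc (n - k) (s ^ 2) (b' s) : ℕ) : ℝ) +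
      (1 + (Z : ℝ)) *
        (((Pal n).filter (fun P => ∃ d : ℕ, 10 ^ t ≤ d ∧ d ^ 2 ∣ P)).card : ℝ)) := by
  have hk1 : 1 ≤ k := by omega
  have hqR : (0 : ℝ) < q := by exact_mod_cast hq1
  -- residues
  have hb : ∀ d : ℕ, ∃ b : ℕ, d.Coprime 10 → 0 < d → d.Coprime q →
      ((PW n k w).filter (fun N => N ≡ a [MOD q] ∧ d ^ 2 ∣ N)).card = sc (n - k) (q * d ^ 2) b := by
    intro d
    by_cases h : d.Coprime 10 ∧ 0 < d ∧ d.Coprime q
    · obtain ⟨h1, h2, h3⟩ := h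
      obtain ⟨r, hr⟩ := (Pool.Agent.Helper32.SW.sw6 q a d hq ha h1 h2).1 h3
      obtain ⟨b, hb⟩ := pw_count hpal hpre n k w hk1 hkn hw1 hw (q * d ^ 2) r
        (Nat.Coprime.mul_left hq (Nat.Coprime.pow_left 2 h1))
      refine ⟨b, fun _ _ _ => ?_⟩
      rw [← hb]
      congr 1
      ext N
      rw [mem_filter, mem_filter, hr]
    · exact ⟨0, fun h1 h2 h3 => absurd ⟨h1, h2, h3⟩ h⟩
  have hb' : ∀ s : ℕ, ∃ b : ℕ, s.Coprime 10 →
      ((PW n k w).filter (fun N => s ^ 2 ∣ N)).card = sc (n - k) (s ^ 2) b := by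
    intro s
    by_cases h : s.Coprime 10
    · obtain ⟨b, hb⟩ := pw_count hpal hpre n k w hk1 hkn hw1 hw (s ^ 2) 0
        (Nat.Coprime.pow_left 2 h)
      refine ⟨b, fun _ => ?_⟩
      rw [← hb]
      congr 1
      ext N
      rw [mem_filter, mem_filter, Nat.modEq_zero_iff_dvd]
    · exact ⟨0, fun h1 => absurd h1 h⟩
  choose b hb using hb
  choose b' hb' using hb'
  refine ⟨b, b', ?_⟩
  -- good palindromes
  have hgood : ∀ N ∈ PW n k w, 0 < N ∧ ¬ 4 ∣ N ∧ ¬ 25 ∣ N := by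
    intro N hN
    have hN' := hN
    rw [mem_PW hpal n k w hk1 hkn hw1] at hN
    have h1 := hlast _ k w N hk hw hN.1 hN.2
    refine ⟨?_, ?_, ?_⟩
    · rcases Nat.eq_zero_or_pos N with h0 | h0
      · exfalso
        rw [h0, Nat.zero_div] at hN
        have h2 := hN.2
        have h3 : 0 < 10 ^ (k - 1) := by positivity
        omega
      · exact h0
    · intro h
      apply h4
      rw [← h1]
      omega
    · intro h
      apply h25
      rw [← h1]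
      omega
  set m := n - k with hm
  set G := (PW n k w).filter (fun N => N ≡ a [MOD q]) with hG
  have hQ : (((PW n k w).filter (fun N => N ≡ a [MOD q] ∧ Squarefree N)).card : ℝ) =
      ∑ N ∈ G, (if Squarefree N then (1 : ℝ) else 0) := by
    rw [Finset.sum_boole, hG, Finset.filter_filter]
  -- pointwise Moebius
  have s1 : |(∑ N ∈ G, (if Squarefree N then (1 : ℝ) else 0)) -
      ∑ N ∈ G, ∑ d ∈ (Icc 1 Z).filter (fun d => d.Coprime 10 ∧ d ^ 2 ∣ N), (μ d : ℝ)| ≤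
      (∑ s ∈ (Ioc Z (10 ^ t)).filter (fun s : ℕ => s.Coprime 10),
        (1 + (((Icc 1 Z).filter (fun d => d ∣ s)).card : ℝ)) *
          ((sc m (s ^ 2) (b' s) : ℕ) : ℝ) +
      (1 + (Z : ℝ)) *
        (((Pal n).filter (fun P => ∃ d : ℕ, 10 ^ t ≤ d ∧ d ^ 2 ∣ P)).card : ℝ)) := by
    rw [← Finset.sum_sub_distrib]
    have h1 : ∀ N ∈ G, |(if Squarefree N then (1 : ℝ) else 0) -
        ∑ d ∈ (Icc 1 Z).filter (fun d => d.Coprime 10 ∧ d ^ 2 ∣ N), (μ d : ℝ)| ≤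
        (∑ s ∈ (Ioc Z (10 ^ t)).filter (fun s => s.Coprime 10 ∧ s ^ 2 ∣ N),
          (1 + (((Icc 1 Z).filter (fun d => d ∣ s)).card : ℝ))) +
        (if ∃ d : ℕ, 10 ^ t ≤ d ∧ d ^ 2 ∣ N then 1 + (Z : ℝ) else 0) := by
      intro N hN
      rw [hG, mem_filter] at hN
      obtain ⟨g1, g2, g3⟩ := hgood N hN.1
      have := Pool.Agent.Helper32.SW.sw3 N Z (10 ^ t) g1 g2 g3 hZ
      convert this using 2
    have hI : ∀ N : ℕ, (0 : ℝ) ≤ (if ∃ d : ℕ, 10 ^ t ≤ d ∧ d ^ 2 ∣ N then 1 + (Z : ℝ) else 0) := by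
      intro N
      split_ifs
      · positivity
      · exact le_rfl
    refine (Finset.abs_sum_le_sum_abs _ _).trans ((sum_le_sum h1).trans ?_)
    have h2 : ∑ N ∈ G, ((∑ s ∈ (Ioc Z (10 ^ t)).filter (fun s => s.Coprime 10 ∧ s ^ 2 ∣ N),
          (1 + (((Icc 1 Z).filter (fun d => d ∣ s)).card : ℝ))) +
        (if ∃ d : ℕ, 10 ^ t ≤ d ∧ d ^ 2 ∣ N then 1 + (Z : ℝ) else 0)) ≤
        ∑ N ∈ PW n k w, ((∑ s ∈ (Ioc Z (10 ^ t)).filter (fun s => s.Coprime 10 ∧ s ^ 2 ∣ N),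
          (1 + (((Icc 1 Z).filter (fun d => d ∣ s)).card : ℝ))) +
        (if ∃ d : ℕ, 10 ^ t ≤ d ∧ d ^ 2 ∣ N then 1 + (Z : ℝ) else 0)) := by
      apply sum_le_sum_of_subset_of_nonneg (filter_subset _ _)
      intro N _ _
      exact add_nonneg (sum_nonneg fun _ _ => by positivity) (hI N)
    refine h2.trans ?_
    rw [sum_add_distrib, swap_sum]
    apply add_le_add
    · apply le_of_eq
      refine sum_congr rfl fun s hs => ?_
      rw [mem_filter] at hs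
      rw [hb' s hs.2]
    · have h3 : ∑ N ∈ PW n k w, (if ∃ d : ℕ, 10 ^ t ≤ d ∧ d ^ 2 ∣ N then 1 + (Z : ℝ) else 0) ≤
          ∑ N ∈ Pal n, (if ∃ d : ℕ, 10 ^ t ≤ d ∧ d ^ 2 ∣ N then 1 + (Z : ℝ) else 0) := by
        apply sum_le_sum_of_subset_of_nonneg
        · unfold PW
          exact filter_subset _ _
        · intro N _ _
          exact hI N
      refine h3.trans (le_of_eq ?_)
      rw [← Finset.sum_filter, sum_const, nsmul_eq_mul, mul_comm]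
  -- the main sum
  have s2 : ∑ N ∈ G, ∑ d ∈ (Icc 1 Z).filter (fun d => d.Coprime 10 ∧ d ^ 2 ∣ N), (μ d : ℝ) =
      ∑ d ∈ (Icc 1 Z).filter (fun d => d.Coprime 10 ∧ d.Coprime q),
        (μ d : ℝ) * ((sc m (q * d ^ 2) (b d) : ℕ) : ℝ) := by
    rw [swap_sum]
    rw [← Finset.filter_filter (fun d : ℕ => d.Coprime 10) (fun d : ℕ => d.Coprime q),
      Finset.sum_filter (s := (Icc 1 Z).filter (fun d : ℕ => d.Coprime 10))
      (p := fun d : ℕ => d.Coprime q)]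
    refine sum_congr rfl fun d hd => ?_
    rw [mem_filter, mem_Icc] at hd
    have e1 : (G.filter (fun N => d ^ 2 ∣ N)) =
        (PW n k w).filter (fun N => N ≡ a [MOD q] ∧ d ^ 2 ∣ N) := by
      rw [hG, Finset.filter_filter]
    rw [e1]
    by_cases hdq : d.Coprime q
    · rw [if_pos hdq, hb d hd.2 (by omega) hdq]
    · rw [if_neg hdq]
      have h1 := (Pool.Agent.Helper32.SW.sw6 q a d hq ha hd.2 (by omega)).2 hdq
      have h2 : (PW n k w).filter (fun N => N ≡ a [MOD q] ∧ d ^ 2 ∣ N) = ∅ := by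
        apply Finset.filter_eq_empty_iff.2
        intro N _ h
        exact h1 N h
      rw [h2, card_empty, Nat.cast_zero, mul_zero]
  have s3 : |∑ d ∈ (Icc 1 Z).filter (fun d => d.Coprime 10 ∧ d.Coprime q),
        (μ d : ℝ) * ((sc m (q * d ^ 2) (b d) : ℕ) : ℝ) -
      (10 : ℝ) ^ (m + 1) / (q : ℝ) * ∑ d ∈ (Icc 1 Z).filter (fun d => d.Coprime 10 ∧ d.Coprime q),
        (μ d : ℝ) / (d : ℝ) ^ 2| ≤
      ∑ d ∈ (Icc 1 Z).filter (fun d => d.Coprime 10 ∧ d.Coprime q),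
        |((sc m (q * d ^ 2) (b d) : ℕ) : ℝ) - 10 ^ (m + 1) / (q * (d : ℝ) ^ 2)| := by
    rw [mul_sum, ← Finset.sum_sub_distrib]
    refine (Finset.abs_sum_le_sum_abs _ _).trans (sum_le_sum fun d hd => ?_)
    have e1 : (μ d : ℝ) * ((sc m (q * d ^ 2) (b d) : ℕ) : ℝ) -
        10 ^ (m + 1) / q * ((μ d : ℝ) / (d : ℝ) ^ 2) =
        (μ d : ℝ) * (((sc m (q * d ^ 2) (b d) : ℕ) : ℝ) - 10 ^ (m + 1) / (q * (d : ℝ) ^ 2)) := by
      rw [mul_sub, div_mul_div_comm, mul_div_assoc']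
      ring
    rw [e1, abs_mul]
    have h1 : |(μ d : ℝ)| ≤ 1 := by
      have := ArithmeticFunction.abs_moebius_le_one (n := d)
      exact_mod_cast this
    calc |(μ d : ℝ)| * |((sc m (q * d ^ 2) (b d) : ℕ) : ℝ) - 10 ^ (m + 1) / (q * (d : ℝ) ^ 2)| ≤
          1 * |((sc m (q * d ^ 2) (b d) : ℕ) : ℝ) - 10 ^ (m + 1) / (q * (d : ℝ) ^ 2)| :=
          mul_le_mul_of_nonneg_right h1 (abs_nonneg _)
      _ = _ := one_mul _
  have s4 := Pool.Agent.Helper32.SW.sw5 q Z hq hZ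
  set SM := ∑ d ∈ (Icc 1 Z).filter (fun d => d.Coprime 10 ∧ d.Coprime q),
        (μ d : ℝ) / (d : ℝ) ^ 2 with hSM
  set Pr := ∏ p ∈ q.primeFactors, (1 - 1 / (p : ℝ) ^ 2)⁻¹ with hPr
  have s5 : |(10 : ℝ) ^ (m + 1) / (q : ℝ) * SM - 25 / (3 * Real.pi ^ 2) * ((10 : ℝ) ^ (m + 1) / (q : ℝ)) * Pr| ≤
      (10 : ℝ) ^ (m + 1) / (q : ℝ) * (2 / (Z : ℝ)) := by
    have e1 : (10 : ℝ) ^ (m + 1) / (q : ℝ) * SM - 25 / (3 * Real.pi ^ 2) * ((10 : ℝ) ^ (m + 1) / (q : ℝ)) * Pr =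
        (10 : ℝ) ^ (m + 1) / (q : ℝ) * (SM - 25 / (3 * Real.pi ^ 2) * Pr) := by ring
    rw [e1, abs_mul, abs_of_nonneg (by positivity : (0 : ℝ) ≤ 10 ^ (m + 1) / (q : ℝ))]
    exact mul_le_mul_of_nonneg_left s4 (by positivity)
  rw [hQ]
  rw [s2] at s1
  have t1 := abs_le.1 s1
  have t3 := abs_le.1 s3
  have t5 := abs_le.1 s5
  rw [abs_le]
  constructor
  · linarith [t1.1, t3.1, t5.1]
  · linarith [t1.2, t3.2, t5.2]

end Pool.Agent.Helper15.SI
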