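import Pool.Agent.Helper10.SQ.B1
import Pool.Agent.Helper10.SQ.B2
import Pool.Agent.Helper10.SQ.C3

/-! Project SI (MP_540de1_nt, SquarefreeCount with error term and prefixes): definitions. -/

namespace Pool.Agent.Helper15.SI

open Finset Pool.Agent.Helper10.SQ

/-- strings of `l` decimal digits (leading zeros allowed) equal to their reverse -/
def Sy (l N : ℕ) : Prop := N < 10 ^ l ∧ ∀ i < l, N / 10 ^ i % 10 = N / 10 ^ (l - 1 - i) % 10

open Classical in
/-- the symmetric strings of length `l` -/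
noncomputable def SS (l : ℕ) : Finset ℕ := (range (10 ^ l)).filter (Sy l)

/-- number of symmetric strings of length `2 * m + 1` in a residue class -/
noncomputable def sc (m q b : ℕ) : ℕ := ((SS (2 * m + 1)).filter (fun M => M ≡ b [MOD q])).card

/-- moduli -/
def Mo (D : ℕ) : Finset ℕ := (Icc 1 D).filter (fun d : ℕ => d.Coprime 10)

/-- error sum for palindromes -/
noncomputable def EP (j D : ℕ) (a : ℕ → ℕ) : ℝ :=
  ∑ d ∈ Mo D, |((cl j (d ^ 2) (a d) : ℕ) : ℝ) - 9 * 10 ^ j / ((d : ℝ) ^ 2)|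

/-- error sum for symmetric strings -/
noncomputable def ES (m D : ℕ) (b : ℕ → ℕ) : ℝ :=
  ∑ d ∈ Mo D, |((sc m (d ^ 2) (b d) : ℕ) : ℝ) - 10 ^ (m + 1) / ((d : ℝ) ^ 2)|

/-- last two digits of a number whose digits begin (in reversed order) with the `k` digits `w` -/
def lastTwo (k w : ℕ) : ℕ := 10 * (w / 10 ^ (k - 2) % 10) + w / 10 ^ (k - 1)

end Pool.Agent.Helper15.SI
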