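import Pool.Agent.Helper15.SI.Defs

/-! Project SI, leaf P6: the tail. -/

namespace Pool.Agent.Helper15.SI

open Finset Filter Topology Pool.Agent.Helper10.SQ Pool.Agent.Helper10.P4

/-- the number of `d ≤ Z` dividing `s` is at most `2 √s` -/
lemma card_dvd_le (Z s : ℕ) (hs : 0 < s) :
    (((Icc 1 Z).filter (fun d => d ∣ s)).card : ℝ) ≤ 2 * Real.sqrt s := by
  classical
  have h1 : (Icc 1 Z).filter (fun d => d ∣ s) ⊆
      (Icc 1 (Nat.sqrt s)) ∪ ((Icc 1 (Nat.sqrt s)).image (fun e => s / e)) := by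
    intro d hd
    rw [mem_filter, mem_Icc] at hd
    obtain ⟨⟨h1, -⟩, h2⟩ := hd
    rw [mem_union, mem_Icc, mem_image]
    by_cases h : d ≤ Nat.sqrt s
    · exact Or.inl ⟨h1, h⟩
    · right
      push Not at h
      refine ⟨s / d, ?_, Nat.div_div_self h2 hs.ne'⟩
      rw [mem_Icc]
      refine ⟨Nat.div_pos (Nat.le_of_dvd hs h2) h1, ?_⟩
      by_contra hcon
      push Not at hcon
      have h3 : s / d * d = s := Nat.div_mul_cancel h2
      have h4 : (Nat.sqrt s + 1) * (Nat.sqrt s + 1) ≤ s / d * d :=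
        Nat.mul_le_mul hcon h
      rw [h3] at h4
      exact absurd (Nat.lt_succ_sqrt s) (not_lt.2 h4)
  have h2 : ((Icc 1 Z).filter (fun d => d ∣ s)).card ≤ 2 * Nat.sqrt s := by
    refine (card_le_card h1).trans ((card_union_le _ _).trans ?_)
    have h3 := card_image_le (s := Icc 1 (Nat.sqrt s)) (f := fun e => s / e)
    rw [Nat.card_Icc, Nat.add_sub_cancel] at h3 ⊢
    omega
  have h3 : ((Nat.sqrt s : ℕ) : ℝ) ≤ Real.sqrt s := Real.nat_sqrt_le_real_sqrt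
  have h4 : (((Icc 1 Z).filter (fun d => d ∣ s)).card : ℝ) ≤ 2 * (Nat.sqrt s : ℕ) := by
    exact_mod_cast h2
  linarith

/-- `∑_{s > Z} s^(-3/2) ≤ 2 / √Z` -/
lemma sum_inv_sqrt (Z T : ℕ) (hZ : 1 ≤ Z) :
    ∑ s ∈ Ioc Z T, 1 / ((s : ℝ) * Real.sqrt s) ≤ 2 / Real.sqrt Z := by
  have key : ∀ T : ℕ, Z ≤ T → ∑ s ∈ Ioc Z T, 1 / ((s : ℝ) * Real.sqrt s) ≤
      2 / Real.sqrt Z - 2 / Real.sqrt T := by
    intro T hT
    induction T, hT using Nat.le_induction with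
    | base => simp
    | succ T hT ih =>
      rw [← Finset.insert_Ioc_right_eq_Ioc_add_one hT, Finset.sum_insert (by simp)]
      have hT0 : (0 : ℝ) < T := by
        have : 0 < T := by omega
        exact_mod_cast this
      have e1 : ((T + 1 : ℕ) : ℝ) = (T : ℝ) + 1 := by push_cast; ring
      rw [e1]
      set a := Real.sqrt (T : ℝ) with ha
      set b := Real.sqrt ((T : ℝ) + 1) with hb
      have ha0 : 0 < a := Real.sqrt_pos.2 hT0
      have hb0 : 0 < b := Real.sqrt_pos.2 (by linarith)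
      have ha2 : a ^ 2 = T := Real.sq_sqrt hT0.le
      have hb2 : b ^ 2 = (T : ℝ) + 1 := Real.sq_sqrt (by linarith)
      have hab : a ≤ b := Real.sqrt_le_sqrt (by linarith)
      have h5 : 1 / (((T : ℝ) + 1) * b) ≤ 2 / a - 2 / b := by
        rw [← hb2, div_sub_div _ _ ha0.ne' hb0.ne', div_le_div_iff₀ (by positivity) (by positivity)]
        have h6 : (b - a) * (b + a) = 1 := by nlinarith
        have h7 : 0 ≤ b - a := by linarith
        -- 1 * (a*b) ≤ (2*b - 2*a) * (b^2*b)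
        have h8 : a ≤ 2 * (b - a) * b ^ 2 := by
          have h9 : 1 ≤ 2 * (b - a) * b := by nlinarith
          nlinarith [mul_nonneg h7 hb0.le]
        nlinarith [mul_nonneg hb0.le (sub_nonneg.2 h8)]
      linarith
  rcases le_or_gt Z T with h | h
  · have := key T h
    have h2 : 0 ≤ 2 / Real.sqrt (T : ℝ) := by positivity
    linarith
  · rw [Finset.Ioc_eq_empty (by omega), Finset.sum_empty]
    positivity

lemma two_le_log_ten : (2 : ℝ) ≤ Real.log 10 := by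
  rw [Real.le_log_iff_exp_le (by norm_num)]
  have h1 : Real.exp 1 < 2.7182818286 := Real.exp_one_lt_d9
  have h2 : Real.exp 2 = Real.exp 1 * Real.exp 1 := by
    rw [← Real.exp_add]
    norm_num
  rw [h2]
  have h3 : 0 < Real.exp 1 := Real.exp_pos 1
  nlinarith

lemma ten_rpow_neg {x : ℝ} (hx : 0 ≤ x) : (10 : ℝ) ^ (-x) ≤ Real.exp (-(2 * x)) := by
  rw [Real.rpow_def_of_pos (by norm_num)]
  apply Real.exp_le_exp.2
  nlinarith [two_le_log_ten]

lemma part1 (m t Z : ℕ) (hZ : 1 ≤ Z) (b : ℕ → ℕ) :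
    ∑ s ∈ (Ioc Z (10 ^ t)).filter (fun s : ℕ => s.Coprime 10),
        (1 + (((Icc 1 Z).filter (fun d => d ∣ s)).card : ℝ)) * ((sc m (s ^ 2) (b s) : ℕ) : ℝ) ≤
      (10 : ℝ) ^ m * (60 / Real.sqrt Z) + (1 + (Z : ℝ)) * ES m (10 ^ t) b := by
  have h1 : ∀ s ∈ (Ioc Z (10 ^ t)).filter (fun s : ℕ => s.Coprime 10),
      (1 + (((Icc 1 Z).filter (fun d => d ∣ s)).card : ℝ)) * ((sc m (s ^ 2) (b s) : ℕ) : ℝ) ≤
      30 * (10 : ℝ) ^ m * (1 / ((s : ℝ) * Real.sqrt s)) +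
      (1 + (Z : ℝ)) * |((sc m (s ^ 2) (b s) : ℕ) : ℝ) - 10 ^ (m + 1) / ((s : ℝ) ^ 2)| := by
    intro s hs
    rw [mem_filter, mem_Ioc] at hs
    have hs0 : 0 < s := by omega
    have hsR : (0 : ℝ) < s := by exact_mod_cast hs0
    have hs1 : (1 : ℝ) ≤ s := by exact_mod_cast hs0
    set v := Real.sqrt (s : ℝ) with hv
    have hv0 : 0 < v := Real.sqrt_pos.2 hsR
    have hv2 : v ^ 2 = s := Real.sq_sqrt hsR.le
    have hv1 : 1 ≤ v := by
      rw [hv, Real.one_le_sqrt]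
      exact hs1
    set W := (((Icc 1 Z).filter (fun d => d ∣ s)).card : ℝ) with hW
    have hW0 : 0 ≤ W := Nat.cast_nonneg _
    have hW1 : W ≤ 2 * v := card_dvd_le Z s hs0
    have hW2 : W ≤ Z := by
      have := Finset.card_filter_le (Icc 1 Z) (fun d => d ∣ s)
      rw [Nat.card_Icc, Nat.add_sub_cancel] at this
      rw [hW]
      exact_mod_cast this
    set S := ((sc m (s ^ 2) (b s) : ℕ) : ℝ) with hS
    have h2 : S ≤ 10 ^ (m + 1) / ((s : ℝ) ^ 2) + |S - 10 ^ (m + 1) / ((s : ℝ) ^ 2)| := by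
      have := le_abs_self (S - 10 ^ (m + 1) / ((s : ℝ) ^ 2))
      linarith
    have h3 : (1 + W) * (10 ^ (m + 1) / ((s : ℝ) ^ 2)) ≤
        30 * (10 : ℝ) ^ m * (1 / ((s : ℝ) * v)) := by
      have h4 : (1 + W) * (10 ^ (m + 1) / ((s : ℝ) ^ 2)) ≤
          (3 * v) * (10 ^ (m + 1) / ((s : ℝ) ^ 2)) :=
        mul_le_mul_of_nonneg_right (by linarith) (by positivity)
      refine h4.trans (le_of_eq ?_)
      rw [pow_succ]
      rw [show (s : ℝ) ^ 2 = s * v * v by rw [mul_assoc, ← pow_two v, hv2, pow_two]]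
      field_simp
      ring
    calc (1 + W) * S ≤ (1 + W) * (10 ^ (m + 1) / ((s : ℝ) ^ 2) +
          |S - 10 ^ (m + 1) / ((s : ℝ) ^ 2)|) :=
          mul_le_mul_of_nonneg_left h2 (by linarith)
      _ = (1 + W) * (10 ^ (m + 1) / ((s : ℝ) ^ 2)) +
          (1 + W) * |S - 10 ^ (m + 1) / ((s : ℝ) ^ 2)| := by ring
      _ ≤ _ := add_le_add h3 (mul_le_mul_of_nonneg_right (by linarith) (abs_nonneg _))
  refine (sum_le_sum h1).trans ?_
  rw [sum_add_distrib, ← mul_sum, ← mul_sum]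
  apply add_le_add
  · have h2 : ∑ s ∈ (Ioc Z (10 ^ t)).filter (fun s : ℕ => s.Coprime 10),
        1 / ((s : ℝ) * Real.sqrt s) ≤ 2 / Real.sqrt Z :=
      (sum_le_sum_of_subset_of_nonneg (filter_subset _ _)
        (fun _ _ _ => by positivity)).trans (sum_inv_sqrt Z (10 ^ t) hZ)
    calc 30 * (10 : ℝ) ^ m * ∑ s ∈ (Ioc Z (10 ^ t)).filter (fun s : ℕ => s.Coprime 10),
          1 / ((s : ℝ) * Real.sqrt s) ≤ 30 * (10 : ℝ) ^ m * (2 / Real.sqrt Z) :=
          mul_le_mul_of_nonneg_left h2 (by positivity)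
      _ = (10 : ℝ) ^ m * (60 / Real.sqrt Z) := by ring
  · apply mul_le_mul_of_nonneg_left _ (by positivity)
    unfold ES
    apply sum_le_sum_of_subset_of_nonneg
    · intro s hs
      rw [mem_filter, mem_Ioc] at hs
      unfold Mo
      rw [mem_filter, mem_Icc]
      exact ⟨⟨by omega, hs.1.2⟩, hs.2⟩
    · intro _ _ _
      exact abs_nonneg _

open Classical in
theorem tail_S (ε : ℝ) (hε : 0 < ε) (hS : ∀ ε : ℝ, 0 < ε → ∃ c : ℝ, 0 < c ∧ ∃ m0 : ℕ,
      ∀ m : ℕ, m0 ≤ m → ∀ D : ℕ, (D : ℝ) ≤ (10 : ℝ) ^ ((1 - ε) * (m : ℝ)) → ∀ b : ℕ → ℕ,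
      ES m D b ≤ (10 : ℝ) ^ m * Real.exp (-(c * Real.sqrt m))) :
    ∃ c : ℝ, 0 < c ∧ ∃ n0 : ℕ, ∀ n : ℕ, n0 ≤ n → ∀ k : ℕ, (k : ℝ) ≤ (1 / 6 - ε) * n →
      ∃ t : ℕ, ∀ Z : ℕ, 1 ≤ Z → (Z : ℝ) ≤ Real.exp (c * Real.sqrt n) → ∀ b : ℕ → ℕ,
      ∑ s ∈ (Ioc Z (10 ^ t)).filter (fun s : ℕ => s.Coprime 10),
        (1 + (((Icc 1 Z).filter (fun d => d ∣ s)).card : ℝ)) * ((sc (n - k) (s ^ 2) (b s) : ℕ) : ℝ) +
      (1 + (Z : ℝ)) * (((Pal n).filter (fun P => ∃ d : ℕ, 10 ^ t ≤ d ∧ d ^ 2 ∣ P)).card : ℝ) ≤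
      (10 : ℝ) ^ (n - k) * (60 / Real.sqrt Z + Real.exp (-(c * Real.sqrt n))) := by
  obtain ⟨c0, hc0, m0, h0⟩ := hS (ε / 2) (by positivity)
  set c := min (c0 / 8) (ε / 8) with hc
  have hcpos : 0 < c := lt_min (by positivity) (by positivity)
  have hc1 : c ≤ c0 / 8 := min_le_left _ _
  have hc2 : c ≤ ε / 8 := min_le_right _ _
  obtain ⟨n1, hn1⟩ := exists_nat_ge ((8 / c0) ^ 2 + 4 / ε)
  refine ⟨c, hcpos, 4 * m0 + n1 + 4, fun n hn k hk => ?_⟩
  have hn4 : (4 : ℝ) ≤ n := by exact_mod_cast (by omega : 4 ≤ n)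
  have hn0 : (0 : ℝ) < n := by linarith
  have hn2 : (8 / c0) ^ 2 + 4 / ε ≤ n := hn1.trans (by exact_mod_cast (by omega : n1 ≤ n))
  have hk0 : (0 : ℝ) ≤ k := Nat.cast_nonneg k
  have hk6 : (6 : ℝ) * k ≤ n := by nlinarith
  have hk6' : 6 * k ≤ n := by exact_mod_cast hk6
  have hε1 : ε ≤ 1 / 6 := by
    by_contra hcon
    push Not at hcon
    nlinarith
  have hεn : 4 ≤ ε * n := by
    have h1 : 4 / ε ≤ n := by nlinarith [sq_nonneg (8 / c0)]
    rw [div_le_iff₀ hε] at h1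
    linarith
  set m := n - k with hm
  have hmR : (m : ℝ) = n - k := Nat.cast_sub (by omega)
  have hm4 : m0 ≤ m := by omega
  have hm0 : (0 : ℝ) ≤ m := Nat.cast_nonneg m
  set t := ⌊(1 - ε / 2) * (m : ℝ)⌋₊ with ht
  refine ⟨t, fun Z hZ hZe b => ?_⟩
  have ht1 : (t : ℝ) ≤ (1 - ε / 2) * m := Nat.floor_le (mul_nonneg (by linarith) hm0)
  have ht2 : (1 - ε / 2) * m < t + 1 := Nat.lt_floor_add_one _
  have htn : t ≤ n := by
    have : (t : ℝ) ≤ n := by nlinarith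
    exact_mod_cast this
  have hZ1 : (1 : ℝ) ≤ Z := by exact_mod_cast hZ
  -- square roots
  set X := Real.sqrt (n : ℝ) with hX
  have hX0 : 0 < X := Real.sqrt_pos.2 hn0
  have hX2 : X ^ 2 = n := Real.sq_sqrt hn0.le
  have hXn : X ≤ n := by nlinarith
  have hXc : 8 / c0 ≤ X := by
    rw [hX]
    apply Real.le_sqrt_of_sq_le
    have : (0 : ℝ) < 4 / ε := by positivity
    linarith
  have hXc' : 8 ≤ c0 * X := by
    rw [div_le_iff₀ hc0] at hXc
    linarith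
  have hXm : X / 2 ≤ Real.sqrt (m : ℝ) := by
    apply Real.le_sqrt_of_sq_le
    nlinarith
  -- the level
  have hES : ES m (10 ^ t) b ≤ (10 : ℝ) ^ m * Real.exp (-(c0 * Real.sqrt m)) := by
    apply h0 m hm4
    push_cast
    rw [← Real.rpow_natCast]
    exact Real.rpow_le_rpow_of_exponent_le (by norm_num) ht1
  have h10m : (0 : ℝ) < (10 : ℝ) ^ m := by positivity
  have p1 := part1 m t Z hZ b
  -- exp bounds
  have hZc : 1 + (Z : ℝ) ≤ 2 * Real.exp (c * X) := by linarith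
  have hE0 : 0 < Real.exp (c * X) := Real.exp_pos _
  have e4 : (4 : ℝ) ≤ Real.exp 2 := by
    have h1 : (2.7182818283 : ℝ) < Real.exp 1 := Real.exp_one_gt_d9
    have h2 : Real.exp 2 = Real.exp 1 * Real.exp 1 := by
      rw [← Real.exp_add]
      norm_num
    rw [h2]
    nlinarith
  have p2 : (1 + (Z : ℝ)) * ES m (10 ^ t) b ≤ (10 : ℝ) ^ m * (Real.exp (-(c * X)) / 2) := by
    have h1 : Real.exp (-(c0 * Real.sqrt m)) ≤ Real.exp (-(c0 * X / 2)) := by
      apply Real.exp_le_exp.2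
      nlinarith
    have h2 : 4 * Real.exp (c * X) * Real.exp (-(c0 * X / 2)) ≤ Real.exp (-(c * X)) := by
      calc 4 * Real.exp (c * X) * Real.exp (-(c0 * X / 2)) ≤
            Real.exp 2 * Real.exp (c * X) * Real.exp (-(c0 * X / 2)) := by
            apply mul_le_mul_of_nonneg_right _ (Real.exp_pos _).le
            exact mul_le_mul_of_nonneg_right e4 hE0.le
        _ = Real.exp (2 + c * X + -(c0 * X / 2)) := by rw [Real.exp_add, Real.exp_add]
        _ ≤ Real.exp (-(c * X)) := by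
            apply Real.exp_le_exp.2
            nlinarith [mul_le_mul_of_nonneg_right hc1 hX0.le]
    calc (1 + (Z : ℝ)) * ES m (10 ^ t) b ≤ (2 * Real.exp (c * X)) *
          ((10 : ℝ) ^ m * Real.exp (-(c0 * X / 2))) := by
          apply mul_le_mul hZc (hES.trans (mul_le_mul_of_nonneg_left h1 h10m.le)) _ (by positivity)
          unfold ES
          exact sum_nonneg fun _ _ => abs_nonneg _
      _ = (10 : ℝ) ^ m * ((4 * Real.exp (c * X) * Real.exp (-(c0 * X / 2))) / 2) := by ring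
      _ ≤ (10 : ℝ) ^ m * (Real.exp (-(c * X)) / 2) := by
          apply mul_le_mul_of_nonneg_left _ h10m.le
          linarith
  have p3 : (1 + (Z : ℝ)) * (((Pal n).filter (fun P => ∃ d : ℕ, 10 ^ t ≤ d ∧ d ^ 2 ∣ P)).card : ℝ) ≤
      (10 : ℝ) ^ m * (Real.exp (-(c * X)) / 2) := by
    have h1 := sqB1 n (n - t) (Nat.sub_le _ _)
    rw [Nat.sub_sub_self htn] at h1
    have h2 : (((Pal n).filter (fun P => ∃ d : ℕ, 10 ^ t ≤ d ∧ d ^ 2 ∣ P)).card : ℝ) ≤
        (10 : ℝ) ^ m * (10 : ℝ) ^ (-(ε / 2 * n)) := by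
      have h3 : (((Pal n).filter (fun P => ∃ d : ℕ, 10 ^ t ≤ d ∧ d ^ 2 ∣ P)).card : ℝ) ≤
          (10 : ℝ) ^ (2 * (n - t) + 1 + (n / 2 + 1)) := by
        rw [pow_add]
        exact_mod_cast h1
      refine h3.trans ?_
      rw [← Real.rpow_natCast, ← Real.rpow_natCast, ← Real.rpow_add (by norm_num)]
      apply Real.rpow_le_rpow_of_exponent_le (by norm_num)
      have h4 : (((n / 2 : ℕ)) : ℝ) ≤ n / 2 := Nat.cast_div_le
      push_cast [Nat.cast_sub htn]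
      nlinarith
    have h3 := ten_rpow_neg (x := ε / 2 * n) (by positivity)
    have h4 : 4 * Real.exp (c * X) * Real.exp (-(2 * (ε / 2 * n))) ≤ Real.exp (-(c * X)) := by
      calc 4 * Real.exp (c * X) * Real.exp (-(2 * (ε / 2 * n))) ≤
            Real.exp 2 * Real.exp (c * X) * Real.exp (-(2 * (ε / 2 * n))) := by
            apply mul_le_mul_of_nonneg_right _ (Real.exp_pos _).le
            exact mul_le_mul_of_nonneg_right e4 hE0.le
        _ = Real.exp (2 + c * X + -(2 * (ε / 2 * n))) := by rw [Real.exp_add, Real.exp_add]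
        _ ≤ Real.exp (-(c * X)) := by
            apply Real.exp_le_exp.2
            nlinarith [mul_le_mul hc2 hXn hX0.le (by positivity : (0 : ℝ) ≤ ε / 8)]
    calc (1 + (Z : ℝ)) * (((Pal n).filter (fun P => ∃ d : ℕ, 10 ^ t ≤ d ∧ d ^ 2 ∣ P)).card : ℝ) ≤
          (2 * Real.exp (c * X)) * ((10 : ℝ) ^ m * Real.exp (-(2 * (ε / 2 * n)))) := by
          apply mul_le_mul hZc (h2.trans (mul_le_mul_of_nonneg_left h3 h10m.le))
            (Nat.cast_nonneg _) (by positivity)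
      _ = (10 : ℝ) ^ m * ((4 * Real.exp (c * X) * Real.exp (-(2 * (ε / 2 * n)))) / 2) := by ring
      _ ≤ (10 : ℝ) ^ m * (Real.exp (-(c * X)) / 2) := by
          apply mul_le_mul_of_nonneg_left _ h10m.le
          linarith
  have p4 : (10 : ℝ) ^ m * (60 / Real.sqrt Z + Real.exp (-(c * X))) =
      (10 : ℝ) ^ m * (60 / Real.sqrt Z) + (10 : ℝ) ^ m * (Real.exp (-(c * X)) / 2) +
      (10 : ℝ) ^ m * (Real.exp (-(c * X)) / 2) := by ring
  rw [p4]
  linarith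

end Pool.Agent.Helper15.SI
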