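import Pool.Agent.Helper15.SI.P6
import Pool.Agent.Helper15.SI.P7

/-! Project SI, leaf P8: the asymptotic formula. -/

namespace Pool.Agent.Helper15.SI

open Finset Filter Topology Pool.Agent.Helper10.SQ Pool.Agent.Helper10.P4

/-- the level for symmetric strings -/
def HLev : Prop := ∀ ε : ℝ, 0 < ε → ∃ c : ℝ, 0 < c ∧ ∃ m0 : ℕ,
      ∀ m : ℕ, m0 ≤ m → ∀ D : ℕ, (D : ℝ) ≤ (10 : ℝ) ^ ((1 - ε) * (m : ℝ)) → ∀ b : ℕ → ℕ,
      ES m D b ≤ (10 : ℝ) ^ m * Real.exp (-(c * Real.sqrt m))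

/-- small moduli for symmetric strings -/
def HSmall : Prop := ∃ ρ : ℝ, 0 < ρ ∧ ρ < 1 ∧ ∀ m M k b : ℕ, M.Coprime 10 → M ≤ 10 ^ k →
    |((sc m M b : ℕ) : ℝ) - 10 ^ (m + 1) / M| ≤ 10 ^ (m + 2) * (M * ρ ^ (m / (2 * k + 3)))

open Classical in
/-- the density -/
noncomputable def sig (k w : ℕ) : ℝ :=
  if 4 ∣ lastTwo k w ∨ 25 ∣ lastTwo k w then 0 else 25 / (3 * Real.pi ^ 2)

open Classical in
theorem bad_zero (hpal : HPal) (hlast : HLast) (n k w q a : ℕ) (hk : 2 ≤ k) (hkn : k ≤ n)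
    (hw1 : 10 ^ (k - 1) ≤ w) (hw : w < 10 ^ k) (h : 4 ∣ lastTwo k w ∨ 25 ∣ lastTwo k w) :
    ((PW n k w).filter (fun N => N ≡ a [MOD q] ∧ Squarefree N)) = ∅ := by
  apply Finset.filter_eq_empty_iff.2
  intro N hN h2
  rw [mem_PW hpal n k w (by omega) hkn hw1] at hN
  have h1 := hlast _ k w N hk hw hN.1 hN.2
  have h3 := (Nat.squarefree_iff_prime_squarefree).1 h2.2
  rcases h with h | h
  · apply h3 2 Nat.prime_two
    rw [← h1] at h
    show 2 * 2 ∣ N
    omega
  · apply h3 5 Nat.prime_five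
    rw [← h1] at h
    show 5 * 5 ∣ N
    omega

open Classical in
theorem asymp (hpal : HPal) (hpre : HPre) (hlast : HLast) (hS : HLev) (hsm : HSmall)
    (ε : ℝ) (hε : 0 < ε) : ∃ c : ℝ, 0 < c ∧ ∃ n0 : ℕ, ∀ n : ℕ, n0 ≤ n → ∀ k : ℕ, 2 ≤ k →
    (k : ℝ) ≤ (1 / 6 - ε) * n → ∀ w : ℕ, 10 ^ (k - 1) ≤ w → w < 10 ^ k → ∀ q : ℕ, 1 ≤ q →
    (q : ℝ) ≤ Real.exp (c * Real.sqrt n) → q.Coprime 10 → ∀ a : ℕ, a.Coprime q →
    |(((PW n k w).filter (fun N => N ≡ a [MOD q] ∧ Squarefree N)).card : ℝ) -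
      sig k w * ((10 : ℝ) ^ (n - k + 1) / (q : ℝ)) *
        ∏ p ∈ q.primeFactors, (1 - 1 / (p : ℝ) ^ 2)⁻¹| ≤
    (10 : ℝ) ^ (n - k) / (q : ℝ) * Real.exp (-(c * Real.sqrt n)) := by
  obtain ⟨c1, hc1, n1, hT⟩ := tail_S ε hε hS
  obtain ⟨ρ, hρ0, hρ1, hsm⟩ := hsm
  set l := -Real.log ρ with hl
  have hl0 : 0 < l := by
    rw [hl]
    have := Real.log_neg hρ0 hρ1
    linarith
  set c2 := min 1 (min c1 (l / 100)) with hc2
  have hc20 : 0 < c2 := lt_min one_pos (lt_min hc1 (by positivity))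
  have hc2a : c2 ≤ 1 := min_le_left _ _
  have hc2b : c2 ≤ c1 := (min_le_right _ _).trans (min_le_left _ _)
  have hc2c : c2 ≤ l / 100 := (min_le_right _ _).trans (min_le_right _ _)
  set c := c2 / 16 with hc
  have hc0 : 0 < c := by positivity
  set K := 400 * Real.exp l with hK
  have hK0 : 0 < K := by positivity
  have hK400 : 400 ≤ K := by
    have : 1 ≤ Real.exp l := Real.one_le_exp hl0.le
    rw [hK]
    linarith
  obtain ⟨n2, hn2⟩ := exists_nat_ge ((Real.log K / (c2 / 4)) ^ 2)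
  refine ⟨c, hc0, n1 + n2 + 1, fun n hn k hk hkε w hw1 hw q hq1 hqe hq a ha => ?_⟩
  have hn1 : (1 : ℝ) ≤ n := by exact_mod_cast (by omega : 1 ≤ n)
  have hn0 : (0 : ℝ) < n := by linarith
  have hk0 : (0 : ℝ) ≤ k := Nat.cast_nonneg k
  have hk6 : (6 : ℝ) * k ≤ n := by nlinarith
  have hk6' : 6 * k ≤ n := by exact_mod_cast hk6
  have hkn : k ≤ n := by omega
  have hqR : (0 : ℝ) < q := by exact_mod_cast hq1
  by_cases hbad : 4 ∣ lastTwo k w ∨ 25 ∣ lastTwo k w
  · rw [bad_zero hpal hlast n k w q a hk hkn hw1 hw hbad]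
    unfold sig
    rw [if_pos hbad]
    simp only [card_empty, Nat.cast_zero, zero_mul, sub_zero, abs_zero]
    positivity
  have hsig : sig k w = 25 / (3 * Real.pi ^ 2) := by
    unfold sig
    rw [if_neg hbad]
  rw [hsig]
  push Not at hbad
  set X := Real.sqrt (n : ℝ) with hX
  have hX0 : 0 < X := Real.sqrt_pos.2 hn0
  have hX2 : X ^ 2 = n := Real.sq_sqrt hn0.le
  have hX1 : 1 ≤ X := by
    rw [hX, Real.one_le_sqrt]
    exact hn1
  have hXK : K * Real.exp (-(c2 / 4 * X)) ≤ 1 := by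
    have h1 : Real.log K / (c2 / 4) ≤ X := by
      rw [hX]
      apply Real.le_sqrt_of_sq_le
      exact hn2.trans (by exact_mod_cast (by omega : n2 ≤ n))
    rw [div_le_iff₀ (by positivity)] at h1
    have h2 : K ≤ Real.exp (c2 / 4 * X) := by
      rw [← Real.exp_log hK0]
      apply Real.exp_le_exp.2
      linarith
    rw [Real.exp_neg, ← div_eq_mul_inv, div_le_one (Real.exp_pos _)]
    exact h2
  obtain ⟨t, ht⟩ := hT n (by omega) k hkε
  -- Z
  have hexp1 : 1 ≤ Real.exp (c2 * X) := Real.one_le_exp (by positivity)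
  set Z := ⌊Real.exp (c2 * X)⌋₊ with hZ
  have hZ1 : 1 ≤ Z := by
    rw [hZ]
    exact Nat.le_floor (by exact_mod_cast hexp1)
  have hZR1 : (1 : ℝ) ≤ Z := by exact_mod_cast hZ1
  have hZle : (Z : ℝ) ≤ Real.exp (c2 * X) := Nat.floor_le (Real.exp_pos _).le
  have hZge : Real.exp (c2 * X) ≤ 2 * Z := by
    have := Nat.lt_floor_add_one (Real.exp (c2 * X))
    rw [← hZ] at this
    linarith
  have hZc1 : (Z : ℝ) ≤ Real.exp (c1 * X) :=
    hZle.trans (Real.exp_le_exp.2 (mul_le_mul_of_nonneg_right hc2b hX0.le))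
  obtain ⟨b, b', hmain⟩ := main_ineq hpal hpre hlast n k w q a Z t hk hkn hw1 hw hbad.1 hbad.2
    hq1 hq ha hZ1
  have htail := ht Z hZ1 hZc1 b'
  set m := n - k with hm
  have hmR : (m : ℝ) = n - k := Nat.cast_sub hkn
  have h10 : (0 : ℝ) < (10 : ℝ) ^ m := by positivity
  -- error 2
  have E2 : q * ((10 : ℝ) ^ (m + 1) / (q : ℝ) * (2 / (Z : ℝ))) ≤
      (10 : ℝ) ^ m * (Real.exp (-(c * X)) / 4) := by
    have h1 : q * ((10 : ℝ) ^ (m + 1) / (q : ℝ) * (2 / (Z : ℝ))) = (10 : ℝ) ^ m * (20 / Z) := by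
      rw [pow_succ]
      field_simp
      ring
    rw [h1]
    apply mul_le_mul_of_nonneg_left _ h10.le
    have h2 : 20 / (Z : ℝ) ≤ 40 * Real.exp (-(c2 * X)) := by
      rw [Real.exp_neg, ← div_eq_mul_inv, div_le_div_iff₀ (by linarith) (Real.exp_pos _)]
      linarith
    have h3 : 400 * Real.exp (-(c2 / 4 * X)) ≤ 1 := by
      refine le_trans (mul_le_mul_of_nonneg_right hK400 (Real.exp_pos _).le) hXK
    have h4 : Real.exp (-(c2 * X)) ≤ Real.exp (-(c2 / 4 * X)) * Real.exp (-(c * X)) := by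
      rw [← Real.exp_add]
      apply Real.exp_le_exp.2
      rw [hc]
      nlinarith [mul_pos hc20 hX0]
    have h5 : 0 < Real.exp (-(c * X)) := Real.exp_pos _
    nlinarith
  -- error 3
  have E3 : q * ((10 : ℝ) ^ m * (60 / Real.sqrt Z + Real.exp (-(c1 * X)))) ≤
      (10 : ℝ) ^ m * (Real.exp (-(c * X)) / 2) := by
    have h1 : 60 / Real.sqrt (Z : ℝ) ≤ 90 * Real.exp (-(c2 / 2 * X)) := by
      have h2 : Real.exp (c2 / 2 * X) ≤ 3 / 2 * Real.sqrt Z := by
        have h3 : Real.exp (c2 / 2 * X) ^ 2 = Real.exp (c2 * X) := by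
          rw [← Real.exp_nat_mul]
          congr 1
          push_cast
          ring
        have h4 : Real.sqrt (Z : ℝ) ^ 2 = Z := Real.sq_sqrt (by linarith)
        have h5 : 0 ≤ Real.sqrt (Z : ℝ) := Real.sqrt_nonneg _
        apply le_of_sq_le_sq _ (by positivity)
        rw [h3, mul_pow, h4]
        linarith
      have hZ0 : 0 < Real.sqrt (Z : ℝ) := Real.sqrt_pos.2 (by linarith)
      rw [Real.exp_neg, ← div_eq_mul_inv, div_le_div_iff₀ hZ0 (Real.exp_pos _)]
      linarith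
    have h3 : 400 * Real.exp (-(c2 / 4 * X)) ≤ 1 := by
      refine le_trans (mul_le_mul_of_nonneg_right hK400 (Real.exp_pos _).le) hXK
    have h4 : Real.exp (c * X) * Real.exp (-(c2 / 2 * X)) ≤
        Real.exp (-(c2 / 4 * X)) * Real.exp (-(c * X)) := by
      rw [← Real.exp_add, ← Real.exp_add]
      apply Real.exp_le_exp.2
      rw [hc]
      nlinarith [mul_pos hc20 hX0]
    have h5 : Real.exp (c * X) * Real.exp (-(c1 * X)) ≤
        Real.exp (-(c2 / 4 * X)) * Real.exp (-(c * X)) := by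
      rw [← Real.exp_add, ← Real.exp_add]
      apply Real.exp_le_exp.2
      rw [hc]
      nlinarith [mul_pos hc20 hX0, mul_le_mul_of_nonneg_right hc2b hX0.le]
    have h6 : 0 < Real.exp (-(c * X)) := Real.exp_pos _
    have h7 : q * (60 / Real.sqrt Z + Real.exp (-(c1 * X))) ≤ Real.exp (-(c * X)) / 2 := by
      have h8 : q * (60 / Real.sqrt Z + Real.exp (-(c1 * X))) ≤
          Real.exp (c * X) * (90 * Real.exp (-(c2 / 2 * X)) + Real.exp (-(c1 * X))) :=
        mul_le_mul hqe (by linarith) (by positivity) (Real.exp_pos _).le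
      have h9 : Real.exp (c * X) * (90 * Real.exp (-(c2 / 2 * X)) + Real.exp (-(c1 * X))) =
          90 * (Real.exp (c * X) * Real.exp (-(c2 / 2 * X))) +
            Real.exp (c * X) * Real.exp (-(c1 * X)) := by ring
      rw [h9] at h8
      have h10' : Real.exp (-(c2 / 4 * X)) * Real.exp (-(c * X)) ≤ Real.exp (-(c * X)) / 400 := by
        nlinarith
      linarith
    calc q * ((10 : ℝ) ^ m * (60 / Real.sqrt Z + Real.exp (-(c1 * X)))) =
          (10 : ℝ) ^ m * (q * (60 / Real.sqrt Z + Real.exp (-(c1 * X)))) := by ring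
      _ ≤ _ := mul_le_mul_of_nonneg_left h7 h10.le
  -- error 1
  have E1 : q * (∑ d ∈ (Icc 1 Z).filter (fun d => d.Coprime 10 ∧ d.Coprime q),
      |((sc m (q * d ^ 2) (b d) : ℕ) : ℝ) - (10 : ℝ) ^ (m + 1) / ((q : ℝ) * (d : ℝ) ^ 2)|) ≤
      (10 : ℝ) ^ m * (Real.exp (-(c * X)) / 4) := by
    set k' := ⌈2 * c2 * X⌉₊ with hk'
    have hk'1 : 2 * c2 * X ≤ k' := Nat.le_ceil _
    have hk'2 : (k' : ℝ) < 2 * c2 * X + 1 := Nat.ceil_lt_add_one (by positivity)
    set e := m / (2 * k' + 3) with he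
    have he1 : X / 18 - 1 ≤ (e : ℝ) := by
      have h1 : m < (e + 1) * (2 * k' + 3) := by
        rw [he]
        have := Nat.lt_div_mul_add (a := m) (b := 2 * k' + 3) (by omega)
        nlinarith
      have h2 : (m : ℝ) < ((e : ℝ) + 1) * (2 * k' + 3) := by exact_mod_cast h1
      have h3 : (2 * (k' : ℝ) + 3) ≤ 9 * X := by nlinarith [mul_le_mul_of_nonneg_right hc2a hX0.le]
      have h4 : X ^ 2 / 2 ≤ m := by
        rw [hX2, hmR]
        linarith
      have h5 : X ^ 2 / 2 < ((e : ℝ) + 1) * (9 * X) :=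
        lt_of_le_of_lt h4 (lt_of_lt_of_le h2 (mul_le_mul_of_nonneg_left h3 (by positivity)))
      by_contra hcon
      push Not at hcon
      nlinarith
    have hρe : ρ ^ e ≤ Real.exp (l - l * X / 18) := by
      have h1 : ρ ^ e = Real.exp (-(l * e)) := by
        rw [hl, ← Real.exp_log (pow_pos hρ0 e), Real.log_pow]
        congr 1
        ring
      rw [h1]
      apply Real.exp_le_exp.2
      nlinarith
    have hterm : ∀ d ∈ (Icc 1 Z).filter (fun d => d.Coprime 10 ∧ d.Coprime q),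
        |((sc m (q * d ^ 2) (b d) : ℕ) : ℝ) - (10 : ℝ) ^ (m + 1) / ((q : ℝ) * (d : ℝ) ^ 2)| ≤
        (10 : ℝ) ^ (m + 2) * ((Real.exp (c * X) * Real.exp (2 * c2 * X)) * ρ ^ e) := by
      intro d hd
      rw [mem_filter, mem_Icc] at hd
      have hdR : (d : ℝ) ≤ Real.exp (c2 * X) :=
        le_trans (by exact_mod_cast hd.1.2) hZle
      have hd0 : (0 : ℝ) ≤ d := Nat.cast_nonneg d
      have h1 : (q : ℝ) * (d : ℝ) ^ 2 ≤ Real.exp (c * X) * Real.exp (2 * c2 * X) := by
        have h2 : Real.exp (2 * c2 * X) = Real.exp (c2 * X) ^ 2 := by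
          rw [← Real.exp_nat_mul]
          congr 1
          push_cast
          ring
        rw [h2]
        exact mul_le_mul hqe (pow_le_pow_left₀ hd0 hdR 2) (by positivity) (Real.exp_pos _).le
      have h3 : q * d ^ 2 ≤ 10 ^ k' := by
        have h4 : ((q * d ^ 2 : ℕ) : ℝ) ≤ ((10 ^ k' : ℕ) : ℝ) := by
          push_cast
          refine h1.trans ?_
          rw [← Real.exp_add, ← Real.rpow_natCast, Real.rpow_def_of_pos (by norm_num)]
          apply Real.exp_le_exp.2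
          have h5 := two_le_log_ten
          have h6 : (0 : ℝ) ≤ k' := Nat.cast_nonneg k'
          rw [hc]
          nlinarith [mul_pos hc20 hX0, mul_le_mul_of_nonneg_right h5 h6]
        exact_mod_cast h4
      have h5 := hsm m (q * d ^ 2) k' (b d)
        (Nat.Coprime.mul_left hq (Nat.Coprime.pow_left 2 hd.2.1)) h3
      push_cast at h5
      refine h5.trans ?_
      apply mul_le_mul_of_nonneg_left _ (by positivity)
      exact mul_le_mul_of_nonneg_right h1 (by positivity)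
    have hsum : ∑ d ∈ (Icc 1 Z).filter (fun d => d.Coprime 10 ∧ d.Coprime q),
        |((sc m (q * d ^ 2) (b d) : ℕ) : ℝ) - (10 : ℝ) ^ (m + 1) / ((q : ℝ) * (d : ℝ) ^ 2)| ≤
        Real.exp (c2 * X) *
          ((10 : ℝ) ^ (m + 2) * ((Real.exp (c * X) * Real.exp (2 * c2 * X)) * ρ ^ e)) := by
      refine (sum_le_sum hterm).trans ?_
      rw [sum_const, nsmul_eq_mul]
      apply mul_le_mul_of_nonneg_right _ (by positivity)
      have h1 := Finset.card_filter_le (Icc 1 Z) (fun d => d.Coprime 10 ∧ d.Coprime q)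
      rw [Nat.card_Icc, Nat.add_sub_cancel] at h1
      exact le_trans (by exact_mod_cast h1) hZle
    have h7 : Real.exp (c * X) * (Real.exp (c2 * X) *
          (((Real.exp (c * X) * Real.exp (2 * c2 * X)) * Real.exp (l - l * X / 18)))) * 400 ≤
        Real.exp (-(c * X)) := by
      have h8 : Real.exp (c * X) * (Real.exp (c2 * X) *
          (((Real.exp (c * X) * Real.exp (2 * c2 * X)) * Real.exp (l - l * X / 18)))) * 400 =
          K * Real.exp (2 * c * X + 3 * c2 * X - l * X / 18) := by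
        rw [hK]
        rw [← Real.exp_add, ← Real.exp_add, ← Real.exp_add, ← Real.exp_add]
        rw [mul_comm, mul_assoc 400, ← Real.exp_add]
        congr 2
        ring
      rw [h8]
      have h9 : Real.exp (2 * c * X + 3 * c2 * X - l * X / 18) ≤
          Real.exp (-(c2 / 4 * X)) * Real.exp (-(c * X)) := by
        rw [← Real.exp_add]
        apply Real.exp_le_exp.2
        rw [hc]
        nlinarith [mul_le_mul_of_nonneg_right hc2c hX0.le, mul_pos hl0 hX0]
      calc K * Real.exp (2 * c * X + 3 * c2 * X - l * X / 18) ≤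
            K * (Real.exp (-(c2 / 4 * X)) * Real.exp (-(c * X))) :=
            mul_le_mul_of_nonneg_left h9 hK0.le
        _ = (K * Real.exp (-(c2 / 4 * X))) * Real.exp (-(c * X)) := by ring
        _ ≤ 1 * Real.exp (-(c * X)) := mul_le_mul_of_nonneg_right hXK (Real.exp_pos _).le
        _ = _ := one_mul _
    calc q * (∑ d ∈ (Icc 1 Z).filter (fun d => d.Coprime 10 ∧ d.Coprime q),
          |((sc m (q * d ^ 2) (b d) : ℕ) : ℝ) - (10 : ℝ) ^ (m + 1) / ((q : ℝ) * (d : ℝ) ^ 2)|) ≤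
          Real.exp (c * X) * (Real.exp (c2 * X) *
          ((10 : ℝ) ^ (m + 2) * ((Real.exp (c * X) * Real.exp (2 * c2 * X)) * ρ ^ e))) :=
          mul_le_mul hqe hsum (sum_nonneg fun _ _ => abs_nonneg _) (Real.exp_pos _).le
      _ ≤ Real.exp (c * X) * (Real.exp (c2 * X) *
          ((10 : ℝ) ^ (m + 2) * ((Real.exp (c * X) * Real.exp (2 * c2 * X)) *
            Real.exp (l - l * X / 18)))) := by
          apply mul_le_mul_of_nonneg_left _ (Real.exp_pos _).le
          apply mul_le_mul_of_nonneg_left _ (Real.exp_pos _).le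
          apply mul_le_mul_of_nonneg_left _ (by positivity)
          exact mul_le_mul_of_nonneg_left hρe (by positivity)
      _ = (10 : ℝ) ^ m * ((Real.exp (c * X) * (Real.exp (c2 * X) *
          (((Real.exp (c * X) * Real.exp (2 * c2 * X)) * Real.exp (l - l * X / 18)))) * 400) / 4) := by
          ring
      _ ≤ (10 : ℝ) ^ m * (Real.exp (-(c * X)) / 4) := by
          apply mul_le_mul_of_nonneg_left _ h10.le
          linarith
  -- conclusion
  have hfin : q * |(((PW n k w).filter (fun N => N ≡ a [MOD q] ∧ Squarefree N)).card : ℝ) -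
      25 / (3 * Real.pi ^ 2) * ((10 : ℝ) ^ (m + 1) / (q : ℝ)) *
        ∏ p ∈ q.primeFactors, (1 - 1 / (p : ℝ) ^ 2)⁻¹| ≤
      (10 : ℝ) ^ m * Real.exp (-(c * X)) := by
    have h1 := mul_le_mul_of_nonneg_left hmain hqR.le
    have h2 := mul_le_mul_of_nonneg_left htail hqR.le
    rw [mul_add, mul_add] at h1
    linarith
  have hend : (10 : ℝ) ^ m / (q : ℝ) * Real.exp (-(c * X)) =
      (10 : ℝ) ^ m * Real.exp (-(c * X)) / q := by ring
  rw [hend, le_div_iff₀ hqR, mul_comm]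
  exact hfin

end Pool.Agent.Helper15.SI
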