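import Pool.Agent.Helper15.SI.P6
import Pool.Agent.Helper15.SI.P7

/-! Project SI, Q6: the tail, with the prefix used in the count of the large squares. -/

namespace Pool.Agent.Helper15.SI

open Finset Filter Topology Pool.Agent.Helper10.SQ Pool.Agent.Helper10.P4

open Classical in
/-- Q1 (the count of the large squares) as a hypothesis -/
def HB : Prop := ∀ n k w e c : ℕ, e ≤ n → 1 ≤ k → 2 * k + e ≤ n →
    (∀ P ∈ PW n k w, P % 10 ^ k = c ∧ ¬ 4 ∣ P ∧ ¬ 25 ∣ P) →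
    ((PW n k w).filter (fun P => ∃ d : ℕ, 10 ^ (n - e) ≤ d ∧ d ^ 2 ∣ P)).card * 10 ^ k ≤
      (e + 1) * 10 ^ ((n + 3 * e) / 2 + 5)

open Classical in
theorem tail_Q (hB : HB) (ε : ℝ) (hε : 0 < ε) (hS : ∀ ε : ℝ, 0 < ε → ∃ c : ℝ, 0 < c ∧ ∃ m0 : ℕ,
      ∀ m : ℕ, m0 ≤ m → ∀ D : ℕ, (D : ℝ) ≤ (10 : ℝ) ^ ((1 - ε) * (m : ℝ)) → ∀ b : ℕ → ℕ,
      ES m D b ≤ (10 : ℝ) ^ m * Real.exp (-(c * Real.sqrt m))) :
    ∃ c : ℝ, 0 < c ∧ ∃ n0 : ℕ, ∀ n : ℕ, n0 ≤ n → ∀ k : ℕ, 1 ≤ k →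
      (k : ℝ) ≤ (1 / 3 - ε) * n → ∀ w e0 : ℕ,
      (∀ P ∈ PW n k w, P % 10 ^ k = e0 ∧ ¬ 4 ∣ P ∧ ¬ 25 ∣ P) → ∃ t : ℕ, ∀ Z : ℕ, 1 ≤ Z → (Z : ℝ) ≤ Real.exp (c * Real.sqrt n) → ∀ b : ℕ → ℕ,
      ∑ s ∈ (Ioc Z (10 ^ t)).filter (fun s : ℕ => s.Coprime 10),
        (1 + (((Icc 1 Z).filter (fun d => d ∣ s)).card : ℝ)) * ((sc (n - k) (s ^ 2) (b s) : ℕ) : ℝ) +
      (1 + (Z : ℝ)) * (((PW n k w).filter (fun P => ∃ d : ℕ, 10 ^ t ≤ d ∧ d ^ 2 ∣ P)).card : ℝ) ≤
      (10 : ℝ) ^ (n - k) * (60 / Real.sqrt Z + Real.exp (-(c * Real.sqrt n))) := by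
  obtain ⟨c0, hc0, m0, h0⟩ := hS (ε / 2) (by positivity)
  set c := min (c0 / 8) (ε / 8) with hc
  have hcpos : 0 < c := lt_min (by positivity) (by positivity)
  have hc1 : c ≤ c0 / 8 := min_le_left _ _
  have hc2 : c ≤ ε / 8 := min_le_right _ _
  obtain ⟨n1, hn1⟩ := exists_nat_ge ((8 / c0) ^ 2 + 30 / ε + 16 / ε ^ 2)
  refine ⟨c, hcpos, 4 * m0 + n1 + 4, fun n hn k hk1 hk w e0 hgood => ?_⟩
  have hn4 : (4 : ℝ) ≤ n := by exact_mod_cast (by omega : 4 ≤ n)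
  have hn0 : (0 : ℝ) < n := by linarith
  have hn2 : (8 / c0) ^ 2 + 30 / ε + 16 / ε ^ 2 ≤ n := hn1.trans (by exact_mod_cast (by omega : n1 ≤ n))
  have hk0 : (0 : ℝ) ≤ k := Nat.cast_nonneg k
  have hk6 : (3 : ℝ) * k ≤ n := by nlinarith
  have hk6' : 3 * k ≤ n := by exact_mod_cast hk6
  have hε1 : ε ≤ 1 / 3 := by
    by_contra hcon
    push Not at hcon
    nlinarith
  have hεn : 30 ≤ ε * n := by
    have h1 : 30 / ε ≤ n := by
      have h2 : 0 ≤ 16 / ε ^ 2 := by positivity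
      nlinarith [sq_nonneg (8 / c0)]
    rw [div_le_iff₀ hε] at h1
    linarith
  have hεn2 : 16 ≤ ε ^ 2 * n := by
    have h1 : 16 / ε ^ 2 ≤ n := by
      have h2 : 0 ≤ 30 / ε := by positivity
      nlinarith [sq_nonneg (8 / c0)]
    rw [div_le_iff₀ (by positivity)] at h1
    linarith
  set m := n - k with hm
  have hmR : (m : ℝ) = n - k := Nat.cast_sub (by omega)
  have hm4 : m0 ≤ m := by omega
  have hm0 : (0 : ℝ) ≤ m := Nat.cast_nonneg m
  set t := ⌊(1 - ε / 2) * (m : ℝ)⌋₊ with ht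
  refine ⟨t, fun Z hZ hZe b => ?_⟩
  have ht1 : (t : ℝ) ≤ (1 - ε / 2) * m := Nat.floor_le (mul_nonneg (by linarith) hm0)
  have ht2 : (1 - ε / 2) * m < t + 1 := Nat.lt_floor_add_one _
  have htn : t ≤ n := by
    have : (t : ℝ) ≤ n := by nlinarith
    exact_mod_cast this
  have hZ1 : (1 : ℝ) ≤ Z := by exact_mod_cast hZ
  -- square roots
  set X := Real.sqrt (n : ℝ) with hX
  have hX0 : 0 < X := Real.sqrt_pos.2 hn0
  have hX2 : X ^ 2 = n := Real.sq_sqrt hn0.le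
  have hXn : X ≤ n := by nlinarith
  have hXc : 8 / c0 ≤ X := by
    rw [hX]
    apply Real.le_sqrt_of_sq_le
    have h1 : (0 : ℝ) < 30 / ε := by positivity
    have h2 : (0 : ℝ) < 16 / ε ^ 2 := by positivity
    linarith
  have hXc' : 8 ≤ c0 * X := by
    rw [div_le_iff₀ hc0] at hXc
    linarith
  have hXm : X / 2 ≤ Real.sqrt (m : ℝ) := by
    apply Real.le_sqrt_of_sq_le
    nlinarith
  -- the level
  have hES : ES m (10 ^ t) b ≤ (10 : ℝ) ^ m * Real.exp (-(c0 * Real.sqrt m)) := by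
    apply h0 m hm4
    push_cast
    rw [← Real.rpow_natCast]
    exact Real.rpow_le_rpow_of_exponent_le (by norm_num) ht1
  have h10m : (0 : ℝ) < (10 : ℝ) ^ m := by positivity
  have p1 := part1 m t Z hZ b
  -- exp bounds
  have hZc : 1 + (Z : ℝ) ≤ 2 * Real.exp (c * X) := by linarith
  have hE0 : 0 < Real.exp (c * X) := Real.exp_pos _
  have e4 : (4 : ℝ) ≤ Real.exp 2 := by
    have h1 : (2.7182818283 : ℝ) < Real.exp 1 := Real.exp_one_gt_d9
    have h2 : Real.exp 2 = Real.exp 1 * Real.exp 1 := by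
      rw [← Real.exp_add]
      norm_num
    rw [h2]
    nlinarith
  have p2 : (1 + (Z : ℝ)) * ES m (10 ^ t) b ≤ (10 : ℝ) ^ m * (Real.exp (-(c * X)) / 2) := by
    have h1 : Real.exp (-(c0 * Real.sqrt m)) ≤ Real.exp (-(c0 * X / 2)) := by
      apply Real.exp_le_exp.2
      nlinarith
    have h2 : 4 * Real.exp (c * X) * Real.exp (-(c0 * X / 2)) ≤ Real.exp (-(c * X)) := by
      calc 4 * Real.exp (c * X) * Real.exp (-(c0 * X / 2)) ≤
            Real.exp 2 * Real.exp (c * X) * Real.exp (-(c0 * X / 2)) := by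
            apply mul_le_mul_of_nonneg_right _ (Real.exp_pos _).le
            exact mul_le_mul_of_nonneg_right e4 hE0.le
        _ = Real.exp (2 + c * X + -(c0 * X / 2)) := by rw [Real.exp_add, Real.exp_add]
        _ ≤ Real.exp (-(c * X)) := by
            apply Real.exp_le_exp.2
            nlinarith [mul_le_mul_of_nonneg_right hc1 hX0.le]
    calc (1 + (Z : ℝ)) * ES m (10 ^ t) b ≤ (2 * Real.exp (c * X)) *
          ((10 : ℝ) ^ m * Real.exp (-(c0 * X / 2))) := by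
          apply mul_le_mul hZc (hES.trans (mul_le_mul_of_nonneg_left h1 h10m.le)) _ (by positivity)
          unfold ES
          exact sum_nonneg fun _ _ => abs_nonneg _
      _ = (10 : ℝ) ^ m * ((4 * Real.exp (c * X) * Real.exp (-(c0 * X / 2))) / 2) := by ring
      _ ≤ (10 : ℝ) ^ m * (Real.exp (-(c * X)) / 2) := by
          apply mul_le_mul_of_nonneg_left _ h10m.le
          linarith
  have p3 : (1 + (Z : ℝ)) * (((PW n k w).filter (fun P => ∃ d : ℕ, 10 ^ t ≤ d ∧ d ^ 2 ∣ P)).card : ℝ) ≤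
      (10 : ℝ) ^ m * (Real.exp (-(c * X)) / 2) := by
    have hmn : (m : ℝ) ≤ n := by linarith
    have hεm : ε * m ≤ ε * n := mul_le_mul_of_nonneg_left hmn hε.le
    have ht3 : (m : ℝ) - ε * m / 2 < t + 1 := by linarith
    have hk3 : (k : ℝ) ≤ n / 3 - ε * n := by linarith
    have hcond : 2 * k + (n - t) ≤ n := by
      have h2 : (2 : ℝ) * k ≤ t := by linarith
      have h3 : 2 * k ≤ t := by exact_mod_cast h2
      omega
    have h1 := hB n k w (n - t) e0 (Nat.sub_le _ _) hk1 hcond hgood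
    rw [Nat.sub_sub_self htn] at h1
    have he1 : (((n - t : ℕ) : ℝ) + 1) ≤ (10 : ℝ) ^ (ε / 4 * n) := by
      have h2 : ((n - t : ℕ) : ℝ) ≤ n := by exact_mod_cast Nat.sub_le _ _
      have h3 : Real.exp (2 * (ε / 4 * n)) ≤ (10 : ℝ) ^ (ε / 4 * n) := by
        rw [Real.rpow_def_of_pos (by norm_num)]
        apply Real.exp_le_exp.2
        have h4 : 0 ≤ ε / 4 * n := by positivity
        nlinarith [two_le_log_ten]
      have h5 := Real.quadratic_le_exp_of_nonneg (x := 2 * (ε / 4 * n)) (by positivity)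
      have h6 : (n : ℝ) + 1 ≤ 1 + 2 * (ε / 4 * n) + (2 * (ε / 4 * n)) ^ 2 / 2 := by
        have h7 : (2 * (ε / 4 * n)) ^ 2 / 2 = (ε ^ 2 * n) * n / 8 := by ring
        rw [h7]
        nlinarith
      linarith
    have h2 : (((PW n k w).filter (fun P => ∃ d : ℕ, 10 ^ t ≤ d ∧ d ^ 2 ∣ P)).card : ℝ) ≤
        (10 : ℝ) ^ m * (10 : ℝ) ^ (-(ε / 4 * n)) := by
      have h3 : (((PW n k w).filter (fun P => ∃ d : ℕ, 10 ^ t ≤ d ∧ d ^ 2 ∣ P)).card : ℝ) *
          (10 : ℝ) ^ k ≤ (((n - t : ℕ) : ℝ) + 1) * (10 : ℝ) ^ ((n + 3 * (n - t)) / 2 + 5) := by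
        exact_mod_cast h1
      have h10k : (0 : ℝ) < (10 : ℝ) ^ k := by positivity
      rw [← mul_le_mul_iff_left₀ h10k]
      refine h3.trans ?_
      have h4 : ((((n + 3 * (n - t)) / 2 : ℕ)) : ℝ) ≤ (n + 3 * (n - t)) / 2 := by
        have h5 := Nat.cast_div_le (α := ℝ) (m := n + 3 * (n - t)) (n := 2)
        push_cast [Nat.cast_sub htn] at h5
        exact h5
      have h5 : (10 : ℝ) ^ ((n + 3 * (n - t)) / 2 + 5) ≤
          (10 : ℝ) ^ ((n : ℝ) - ε / 2 * n) := by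
        rw [← Real.rpow_natCast]
        apply Real.rpow_le_rpow_of_exponent_le (by norm_num)
        push_cast
        linarith
      calc (((n - t : ℕ) : ℝ) + 1) * (10 : ℝ) ^ ((n + 3 * (n - t)) / 2 + 5) ≤
            (10 : ℝ) ^ (ε / 4 * n) * (10 : ℝ) ^ ((n : ℝ) - ε / 2 * n) :=
            mul_le_mul he1 h5 (by positivity) (by positivity)
        _ = (10 : ℝ) ^ m * (10 : ℝ) ^ (-(ε / 4 * n)) * (10 : ℝ) ^ k := by
            rw [← Real.rpow_natCast, ← Real.rpow_natCast, ← Real.rpow_add (by norm_num),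
              ← Real.rpow_add (by norm_num), ← Real.rpow_add (by norm_num)]
            congr 1
            rw [hmR]
            ring
    have h3 := ten_rpow_neg (x := ε / 4 * n) (by positivity)
    have h4 : 4 * Real.exp (c * X) * Real.exp (-(2 * (ε / 4 * n))) ≤ Real.exp (-(c * X)) := by
      calc 4 * Real.exp (c * X) * Real.exp (-(2 * (ε / 4 * n))) ≤
            Real.exp 2 * Real.exp (c * X) * Real.exp (-(2 * (ε / 4 * n))) := by
            apply mul_le_mul_of_nonneg_right _ (Real.exp_pos _).le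
            exact mul_le_mul_of_nonneg_right e4 hE0.le
        _ = Real.exp (2 + c * X + -(2 * (ε / 4 * n))) := by rw [Real.exp_add, Real.exp_add]
        _ ≤ Real.exp (-(c * X)) := by
            apply Real.exp_le_exp.2
            nlinarith [mul_le_mul hc2 hXn hX0.le (by positivity : (0 : ℝ) ≤ ε / 8)]
    calc (1 + (Z : ℝ)) * (((PW n k w).filter (fun P => ∃ d : ℕ, 10 ^ t ≤ d ∧ d ^ 2 ∣ P)).card : ℝ) ≤
          (2 * Real.exp (c * X)) * ((10 : ℝ) ^ m * Real.exp (-(2 * (ε / 4 * n)))) := by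
          apply mul_le_mul hZc (h2.trans (mul_le_mul_of_nonneg_left h3 h10m.le))
            (Nat.cast_nonneg _) (by positivity)
      _ = (10 : ℝ) ^ m * ((4 * Real.exp (c * X) * Real.exp (-(2 * (ε / 4 * n)))) / 2) := by ring
      _ ≤ (10 : ℝ) ^ m * (Real.exp (-(c * X)) / 2) := by
          apply mul_le_mul_of_nonneg_left _ h10m.le
          linarith
  have p4 : (10 : ℝ) ^ m * (60 / Real.sqrt Z + Real.exp (-(c * X))) =
      (10 : ℝ) ^ m * (60 / Real.sqrt Z) + (10 : ℝ) ^ m * (Real.exp (-(c * X)) / 2) +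
      (10 : ℝ) ^ m * (Real.exp (-(c * X)) / 2) := by ring
  rw [p4]
  linarith


end Pool.Agent.Helper15.SI
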