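import Pool.Agent.Helper15.SI.P7

/-! Project SI, Q7: the finite inequality, with the prefix kept in the last term. -/

namespace Pool.Agent.Helper15.SI

open Finset Filter Topology Pool.Agent.Helper10.SQ Pool.Agent.Helper10.P4
open scoped ArithmeticFunction.Moebius

open Classical in
/-- the finite inequality -/
theorem main_ineqQ (hpal : HPal) (hpre : HPre) (hlast : HLast) (n k w q a Z t : ℕ) (hk : 2 ≤ k)
    (hkn : k ≤ n) (hw1 : 10 ^ (k - 1) ≤ w) (hw : w < 10 ^ k)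
    (h4 : ¬ 4 ∣ lastTwo k w) (h25 : ¬ 25 ∣ lastTwo k w) (hq1 : 1 ≤ q) (hq : q.Coprime 10)
    (ha : a.Coprime q) (hZ : 1 ≤ Z) : ∃ b b' : ℕ → ℕ,
    |(((PW n k w).filter (fun N => N ≡ a [MOD q] ∧ Squarefree N)).card : ℝ) -
      25 / (3 * Real.pi ^ 2) * ((10 : ℝ) ^ (n - k + 1) / (q : ℝ)) *
        ∏ p ∈ q.primeFactors, (1 - 1 / (p : ℝ) ^ 2)⁻¹| ≤
    (∑ d ∈ (Icc 1 Z).filter (fun d => d.Coprime 10 ∧ d.Coprime q),
      |((sc (n - k) (q * d ^ 2) (b d) : ℕ) : ℝ) - (10 : ℝ) ^ (n - k + 1) / ((q : ℝ) * (d : ℝ) ^ 2)|) +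
    (10 : ℝ) ^ (n - k + 1) / (q : ℝ) * (2 / (Z : ℝ)) +
    (∑ s ∈ (Ioc Z (10 ^ t)).filter (fun s : ℕ => s.Coprime 10),
        (1 + (((Icc 1 Z).filter (fun d => d ∣ s)).card : ℝ)) *
          ((sc (n - k) (s ^ 2) (b' s) : ℕ) : ℝ) +
      (1 + (Z : ℝ)) *
        (((PW n k w).filter (fun P => ∃ d : ℕ, 10 ^ t ≤ d ∧ d ^ 2 ∣ P)).card : ℝ)) := by
  have hk1 : 1 ≤ k := by omega
  have hqR : (0 : ℝ) < q := by exact_mod_cast hq1
  -- residues
  have hb : ∀ d : ℕ, ∃ b : ℕ, d.Coprime 10 → 0 < d → d.Coprime q →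
      ((PW n k w).filter (fun N => N ≡ a [MOD q] ∧ d ^ 2 ∣ N)).card = sc (n - k) (q * d ^ 2) b := by
    intro d
    by_cases h : d.Coprime 10 ∧ 0 < d ∧ d.Coprime q
    · obtain ⟨h1, h2, h3⟩ := h
      obtain ⟨r, hr⟩ := (Pool.Agent.Helper32.SW.sw6 q a d hq ha h1 h2).1 h3
      obtain ⟨b, hb⟩ := pw_count hpal hpre n k w hk1 hkn hw1 hw (q * d ^ 2) r
        (Nat.Coprime.mul_left hq (Nat.Coprime.pow_left 2 h1))
      refine ⟨b, fun _ _ _ => ?_⟩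
      rw [← hb]
      congr 1
      ext N
      rw [mem_filter, mem_filter, hr]
    · exact ⟨0, fun h1 h2 h3 => absurd ⟨h1, h2, h3⟩ h⟩
  have hb' : ∀ s : ℕ, ∃ b : ℕ, s.Coprime 10 →
      ((PW n k w).filter (fun N => s ^ 2 ∣ N)).card = sc (n - k) (s ^ 2) b := by
    intro s
    by_cases h : s.Coprime 10
    · obtain ⟨b, hb⟩ := pw_count hpal hpre n k w hk1 hkn hw1 hw (s ^ 2) 0
        (Nat.Coprime.pow_left 2 h)
      refine ⟨b, fun _ => ?_⟩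
      rw [← hb]
      congr 1
      ext N
      rw [mem_filter, mem_filter, Nat.modEq_zero_iff_dvd]
    · exact ⟨0, fun h1 => absurd h1 h⟩
  choose b hb using hb
  choose b' hb' using hb'
  refine ⟨b, b', ?_⟩
  -- good palindromes
  have hgood : ∀ N ∈ PW n k w, 0 < N ∧ ¬ 4 ∣ N ∧ ¬ 25 ∣ N := by
    intro N hN
    have hN' := hN
    rw [mem_PW hpal n k w hk1 hkn hw1] at hN
    have h1 := hlast _ k w N hk hw hN.1 hN.2
    refine ⟨?_, ?_, ?_⟩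
    · rcases Nat.eq_zero_or_pos N with h0 | h0
      · exfalso
        rw [h0, Nat.zero_div] at hN
        have h2 := hN.2
        have h3 : 0 < 10 ^ (k - 1) := by positivity
        omega
      · exact h0
    · intro h
      apply h4
      rw [← h1]
      omega
    · intro h
      apply h25
      rw [← h1]
      omega
  set m := n - k with hm
  set G := (PW n k w).filter (fun N => N ≡ a [MOD q]) with hG
  have hQ : (((PW n k w).filter (fun N => N ≡ a [MOD q] ∧ Squarefree N)).card : ℝ) =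
      ∑ N ∈ G, (if Squarefree N then (1 : ℝ) else 0) := by
    rw [Finset.sum_boole, hG, Finset.filter_filter]
  -- pointwise Moebius
  have s1 : |(∑ N ∈ G, (if Squarefree N then (1 : ℝ) else 0)) -
      ∑ N ∈ G, ∑ d ∈ (Icc 1 Z).filter (fun d => d.Coprime 10 ∧ d ^ 2 ∣ N), (μ d : ℝ)| ≤
      (∑ s ∈ (Ioc Z (10 ^ t)).filter (fun s : ℕ => s.Coprime 10),
        (1 + (((Icc 1 Z).filter (fun d => d ∣ s)).card : ℝ)) *
          ((sc m (s ^ 2) (b' s) : ℕ) : ℝ) +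
      (1 + (Z : ℝ)) *
        (((PW n k w).filter (fun P => ∃ d : ℕ, 10 ^ t ≤ d ∧ d ^ 2 ∣ P)).card : ℝ)) := by
    rw [← Finset.sum_sub_distrib]
    have h1 : ∀ N ∈ G, |(if Squarefree N then (1 : ℝ) else 0) -
        ∑ d ∈ (Icc 1 Z).filter (fun d => d.Coprime 10 ∧ d ^ 2 ∣ N), (μ d : ℝ)| ≤
        (∑ s ∈ (Ioc Z (10 ^ t)).filter (fun s => s.Coprime 10 ∧ s ^ 2 ∣ N),
          (1 + (((Icc 1 Z).filter (fun d => d ∣ s)).card : ℝ))) +
        (if ∃ d : ℕ, 10 ^ t ≤ d ∧ d ^ 2 ∣ N then 1 + (Z : ℝ) else 0) := by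
      intro N hN
      rw [hG, mem_filter] at hN
      obtain ⟨g1, g2, g3⟩ := hgood N hN.1
      have := Pool.Agent.Helper32.SW.sw3 N Z (10 ^ t) g1 g2 g3 hZ
      convert this using 2
    have hI : ∀ N : ℕ, (0 : ℝ) ≤ (if ∃ d : ℕ, 10 ^ t ≤ d ∧ d ^ 2 ∣ N then 1 + (Z : ℝ) else 0) := by
      intro N
      split_ifs
      · positivity
      · exact le_rfl
    refine (Finset.abs_sum_le_sum_abs _ _).trans ((sum_le_sum h1).trans ?_)
    have h2 : ∑ N ∈ G, ((∑ s ∈ (Ioc Z (10 ^ t)).filter (fun s => s.Coprime 10 ∧ s ^ 2 ∣ N),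
          (1 + (((Icc 1 Z).filter (fun d => d ∣ s)).card : ℝ))) +
        (if ∃ d : ℕ, 10 ^ t ≤ d ∧ d ^ 2 ∣ N then 1 + (Z : ℝ) else 0)) ≤
        ∑ N ∈ PW n k w, ((∑ s ∈ (Ioc Z (10 ^ t)).filter (fun s => s.Coprime 10 ∧ s ^ 2 ∣ N),
          (1 + (((Icc 1 Z).filter (fun d => d ∣ s)).card : ℝ))) +
        (if ∃ d : ℕ, 10 ^ t ≤ d ∧ d ^ 2 ∣ N then 1 + (Z : ℝ) else 0)) := by
      apply sum_le_sum_of_subset_of_nonneg (filter_subset _ _)
      intro N _ _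
      exact add_nonneg (sum_nonneg fun _ _ => by positivity) (hI N)
    refine h2.trans ?_
    rw [sum_add_distrib, swap_sum]
    apply add_le_add
    · apply le_of_eq
      refine sum_congr rfl fun s hs => ?_
      rw [mem_filter] at hs
      rw [hb' s hs.2]
    · apply le_of_eq
      rw [← Finset.sum_filter, sum_const, nsmul_eq_mul, mul_comm]
  -- the main sum
  have s2 : ∑ N ∈ G, ∑ d ∈ (Icc 1 Z).filter (fun d => d.Coprime 10 ∧ d ^ 2 ∣ N), (μ d : ℝ) =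
      ∑ d ∈ (Icc 1 Z).filter (fun d => d.Coprime 10 ∧ d.Coprime q),
        (μ d : ℝ) * ((sc m (q * d ^ 2) (b d) : ℕ) : ℝ) := by
    rw [swap_sum]
    rw [← Finset.filter_filter (fun d : ℕ => d.Coprime 10) (fun d : ℕ => d.Coprime q),
      Finset.sum_filter (s := (Icc 1 Z).filter (fun d : ℕ => d.Coprime 10))
      (p := fun d : ℕ => d.Coprime q)]
    refine sum_congr rfl fun d hd => ?_
    rw [mem_filter, mem_Icc] at hd
    have e1 : (G.filter (fun N => d ^ 2 ∣ N)) =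
        (PW n k w).filter (fun N => N ≡ a [MOD q] ∧ d ^ 2 ∣ N) := by
      rw [hG, Finset.filter_filter]
    rw [e1]
    by_cases hdq : d.Coprime q
    · rw [if_pos hdq, hb d hd.2 (by omega) hdq]
    · rw [if_neg hdq]
      have h1 := (Pool.Agent.Helper32.SW.sw6 q a d hq ha hd.2 (by omega)).2 hdq
      have h2 : (PW n k w).filter (fun N => N ≡ a [MOD q] ∧ d ^ 2 ∣ N) = ∅ := by
        apply Finset.filter_eq_empty_iff.2
        intro N _ h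
        exact h1 N h
      rw [h2, card_empty, Nat.cast_zero, mul_zero]
  have s3 : |∑ d ∈ (Icc 1 Z).filter (fun d => d.Coprime 10 ∧ d.Coprime q),
        (μ d : ℝ) * ((sc m (q * d ^ 2) (b d) : ℕ) : ℝ) -
      (10 : ℝ) ^ (m + 1) / (q : ℝ) * ∑ d ∈ (Icc 1 Z).filter (fun d => d.Coprime 10 ∧ d.Coprime q),
        (μ d : ℝ) / (d : ℝ) ^ 2| ≤
      ∑ d ∈ (Icc 1 Z).filter (fun d => d.Coprime 10 ∧ d.Coprime q),
        |((sc m (q * d ^ 2) (b d) : ℕ) : ℝ) - 10 ^ (m + 1) / (q * (d : ℝ) ^ 2)| := by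
    rw [mul_sum, ← Finset.sum_sub_distrib]
    refine (Finset.abs_sum_le_sum_abs _ _).trans (sum_le_sum fun d hd => ?_)
    have e1 : (μ d : ℝ) * ((sc m (q * d ^ 2) (b d) : ℕ) : ℝ) -
        10 ^ (m + 1) / q * ((μ d : ℝ) / (d : ℝ) ^ 2) =
        (μ d : ℝ) * (((sc m (q * d ^ 2) (b d) : ℕ) : ℝ) - 10 ^ (m + 1) / (q * (d : ℝ) ^ 2)) := by
      rw [mul_sub, div_mul_div_comm, mul_div_assoc']
      ring
    rw [e1, abs_mul]
    have h1 : |(μ d : ℝ)| ≤ 1 := by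
      have := ArithmeticFunction.abs_moebius_le_one (n := d)
      exact_mod_cast this
    calc |(μ d : ℝ)| * |((sc m (q * d ^ 2) (b d) : ℕ) : ℝ) - 10 ^ (m + 1) / (q * (d : ℝ) ^ 2)| ≤
          1 * |((sc m (q * d ^ 2) (b d) : ℕ) : ℝ) - 10 ^ (m + 1) / (q * (d : ℝ) ^ 2)| :=
          mul_le_mul_of_nonneg_right h1 (abs_nonneg _)
      _ = _ := one_mul _
  have s4 := Pool.Agent.Helper32.SW.sw5 q Z hq hZ
  set SM := ∑ d ∈ (Icc 1 Z).filter (fun d => d.Coprime 10 ∧ d.Coprime q),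
        (μ d : ℝ) / (d : ℝ) ^ 2 with hSM
  set Pr := ∏ p ∈ q.primeFactors, (1 - 1 / (p : ℝ) ^ 2)⁻¹ with hPr
  have s5 : |(10 : ℝ) ^ (m + 1) / (q : ℝ) * SM - 25 / (3 * Real.pi ^ 2) * ((10 : ℝ) ^ (m + 1) / (q : ℝ)) * Pr| ≤
      (10 : ℝ) ^ (m + 1) / (q : ℝ) * (2 / (Z : ℝ)) := by
    have e1 : (10 : ℝ) ^ (m + 1) / (q : ℝ) * SM - 25 / (3 * Real.pi ^ 2) * ((10 : ℝ) ^ (m + 1) / (q : ℝ)) * Pr =
        (10 : ℝ) ^ (m + 1) / (q : ℝ) * (SM - 25 / (3 * Real.pi ^ 2) * Pr) := by ring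
    rw [e1, abs_mul, abs_of_nonneg (by positivity : (0 : ℝ) ≤ 10 ^ (m + 1) / (q : ℝ))]
    exact mul_le_mul_of_nonneg_left s4 (by positivity)
  rw [hQ]
  rw [s2] at s1
  have t1 := abs_le.1 s1
  have t3 := abs_le.1 s3
  have t5 := abs_le.1 s5
  rw [abs_le]
  constructor
  · linarith [t1.1, t3.1, t5.1]
  · linarith [t1.2, t3.2, t5.2]

end Pool.Agent.Helper15.SI
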