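import Pool.Agent.Helper15.SI.Q8
import Pool.Agent.Helper36.SI.Q1
import Pool.Agent.Helper94.SI.Level
import Pool.Agent.Helper94.SI.P5

/-! Project SI, Q9: squarefree palindromes with a prefix and in a residue class. -/

namespace Pool.Agent.Helper15.SI

open Finset Filter Topology Pool.Agent.Helper10.SQ Pool.Agent.Helper10.P4

open Classical in
theorem prefix_all (ε : ℝ) (hε : 0 < ε) : ∃ c : ℝ, 0 < c ∧ ∃ n0 : ℕ, ∀ n : ℕ, n0 ≤ n →
    ∀ k : ℕ, 2 ≤ k → (k : ℝ) ≤ (1 / 3 - ε) * n → ∀ w : ℕ, 10 ^ (k - 1) ≤ w → w < 10 ^ k →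
    ∀ q : ℕ, 1 ≤ q → (q : ℝ) ≤ Real.exp (c * Real.sqrt n) → q.Coprime 10 →
    ∀ a : ℕ, a.Coprime q →
    |(((PW n k w).filter (fun N => N ≡ a [MOD q] ∧ Squarefree N)).card : ℝ) -
      sig k w * ((10 : ℝ) ^ (n - k + 1) / (q : ℝ)) *
        ∏ p ∈ q.primeFactors, (1 - 1 / (p : ℝ) ^ 2)⁻¹| ≤
    (10 : ℝ) ^ (n - k) / (q : ℝ) * Real.exp (-(c * Real.sqrt n)) :=
  asympQ (fun n k w e c he hk1 hk hP => sqB1q n k w e c he hk1 hk hP) (fun l N hl => isPalD_iff l N hl) (fun l k w hw => sy_prefix l k w hw)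
    (fun l k w N hk hw hN h => last_two l k w N hk hw hN h) level_S_all small_S ε hε

/-- no palindrome begins with a number which has not exactly `k` digits -/
theorem pw_empty (n k w : ℕ) (hk : 1 ≤ k) (hkn : k ≤ n) (h : ¬ (10 ^ (k - 1) ≤ w ∧ w < 10 ^ k)) :
    PW n k w = ∅ := by
  unfold PW
  apply Finset.filter_eq_empty_iff.2
  intro N hN hw
  apply h
  rw [mem_Pal, isPalD_iff (2 * n + 1) N (by omega)] at hN
  obtain ⟨⟨h1, -⟩, h2⟩ := hN
  rw [Nat.add_sub_cancel] at h2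
  rw [← hw]
  constructor
  · rw [Nat.le_div_iff_mul_le (by positivity), ← pow_add]
    refine le_trans (le_of_eq ?_) h2
    congr 1
    omega
  · rw [Nat.div_lt_iff_lt_mul (by positivity), ← pow_add]
    refine lt_of_lt_of_le h1 (le_of_eq ?_)
    congr 1
    omega

theorem card_SS' (m : ℕ) : (SS (2 * m + 1)).card = 10 ^ (m + 1) :=
  card_SS_of (fun l c N hc => sy_step l c N hc) m

theorem card_PW (n k w : ℕ) (hk : 1 ≤ k) (hkn : k ≤ n) (hw1 : 10 ^ (k - 1) ≤ w)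
    (hw : w < 10 ^ k) : (PW n k w).card = 10 ^ (n - k + 1) := by
  obtain ⟨b, hb⟩ := pw_count (fun l N hl => isPalD_iff l N hl) (fun l k w hw => sy_prefix l k w hw)
    n k w hk hkn hw1 hw 1 0 (Nat.coprime_one_left 10)
  have h1 : (PW n k w).filter (fun N => N ≡ 0 [MOD 1]) = PW n k w := by
    apply Finset.filter_true_of_mem
    intro N _
    exact Nat.modEq_one
  rw [h1] at hb
  rw [hb]
  unfold sc
  rw [← card_SS' (n - k)]
  congr 1
  apply Finset.filter_true_of_mem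
  intro N _
  exact Nat.modEq_one

theorem card_good (n k w : ℕ) (hk : 2 ≤ k) (hkn : k ≤ n) (hw1 : 10 ^ (k - 1) ≤ w)
    (hw : w < 10 ^ k) : 25 / (3 * Real.pi ^ 2) *
      (((PW n k w).filter (fun N => ¬ 4 ∣ N ∧ ¬ 25 ∣ N)).card : ℝ) =
      sig k w * (10 : ℝ) ^ (n - k + 1) := by
  have hlt : ∀ N ∈ PW n k w, N % 100 = lastTwo k w := by
    intro N hN
    rw [mem_PW (fun l N hl => isPalD_iff l N hl) n k w (by omega) hkn hw1] at hN
    exact last_two _ k w N hk hw hN.1 hN.2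
  unfold sig
  by_cases h : 4 ∣ lastTwo k w ∨ 25 ∣ lastTwo k w
  · rw [if_pos h]
    have h1 : (PW n k w).filter (fun N => ¬ 4 ∣ N ∧ ¬ 25 ∣ N) = ∅ := by
      apply Finset.filter_eq_empty_iff.2
      intro N hN h2
      have h3 := hlt N hN
      rw [← h3] at h
      omega
    rw [h1, card_empty, Nat.cast_zero, mul_zero, zero_mul]
  · rw [if_neg h]
    have h1 : (PW n k w).filter (fun N => ¬ 4 ∣ N ∧ ¬ 25 ∣ N) = PW n k w := by
      apply Finset.filter_true_of_mem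
      intro N hN
      have h3 := hlt N hN
      rw [← h3] at h
      omega
    rw [h1, card_PW n k w (by omega) hkn hw1 hw]
    push_cast
    ring

/-- palindromes with a short prefix, through the two-digit prefixes -/
theorem card_short (Q : ℕ → Prop) [DecidablePred Q] (n k w : ℕ) (hn : 2 ≤ n) (hk : k ≤ 2) :
    ((PW n k w).filter Q).card =
      ∑ v ∈ (Ico 10 100).filter (fun v => v / 10 ^ (2 - k) = w), ((PW n 2 v).filter Q).card := by
  have h1 : ∀ N ∈ (PW n k w).filter Q, N / 10 ^ (2 * n + 1 - 2) ∈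
      (Ico 10 100).filter (fun v => v / 10 ^ (2 - k) = w) := by
    intro N hN
    unfold PW at hN
    rw [mem_filter, mem_filter, mem_Pal, isPalD_iff (2 * n + 1) N (by omega)] at hN
    obtain ⟨⟨⟨⟨h1, -⟩, h2⟩, h3⟩, -⟩ := hN
    rw [Nat.add_sub_cancel] at h2
    rw [mem_filter, mem_Ico]
    refine ⟨⟨?_, ?_⟩, ?_⟩
    · rw [Nat.le_div_iff_mul_le (by positivity), ← pow_succ']
      refine le_trans (le_of_eq ?_) h2
      congr 1
      omega
    · rw [Nat.div_lt_iff_lt_mul (by positivity), show (100 : ℕ) = 10 ^ 2 by norm_num, ← pow_add]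
      refine lt_of_lt_of_le h1 (le_of_eq ?_)
      congr 1
      omega
    · rw [Nat.div_div_eq_div_mul, ← pow_add, ← h3]
      congr 2
      omega
  rw [Finset.card_eq_sum_card_fiberwise h1]
  refine sum_congr rfl fun v hv => ?_
  rw [mem_filter] at hv
  congr 1
  unfold PW
  ext N
  simp only [mem_filter]
  constructor
  · rintro ⟨⟨⟨g1, -⟩, g2⟩, g3⟩
    exact ⟨⟨g1, g3⟩, g2⟩
  · rintro ⟨⟨g1, g3⟩, g2⟩
    refine ⟨⟨⟨g1, ?_⟩, g2⟩, g3⟩
    rw [← hv.2, ← g3, Nat.div_div_eq_div_mul, ← pow_add]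
    congr 2
    omega

open Classical in
/-- **Squarefree palindromes with a prefix and in a residue class.** -/
theorem unified (ε : ℝ) (hε : 0 < ε) : ∃ c : ℝ, 0 < c ∧ ∃ n0 : ℕ, ∀ n : ℕ, n0 ≤ n →
    ∀ k : ℕ, (k : ℝ) ≤ (1 / 3 - ε) * n → ∀ w q a : ℕ,
    (q : ℝ) ≤ Real.exp (c * Real.sqrt n) → q.Coprime 10 → a.Coprime q →
    |(((PW n k w).filter (fun N => N ≡ a [MOD q] ∧ Squarefree N)).card : ℝ) -
      25 / (3 * Real.pi ^ 2) *
        ((((PW n k w).filter (fun N => ¬ 4 ∣ N ∧ ¬ 25 ∣ N)).card : ℝ) / (q : ℝ)) *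
        ∏ p ∈ q.primeFactors, (1 - 1 / (p : ℝ) ^ 2)⁻¹| ≤
    (10 : ℝ) ^ (n - k) / (q : ℝ) * Real.exp (-(c * Real.sqrt n)) := by
  set ε' := min ε (1 / 12) with hε'
  have hε'0 : 0 < ε' := lt_min hε (by norm_num)
  have hε'1 : ε' ≤ ε := min_le_left _ _
  have hε'2 : ε' ≤ 1 / 12 := min_le_right _ _
  obtain ⟨c, hc, n0, h⟩ := prefix_all ε' hε'0
  refine ⟨c, hc, n0 + 24, fun n hn k hkε w q a hqe hq ha => ?_⟩
  have hn24 : (24 : ℝ) ≤ n := by exact_mod_cast (by omega : 24 ≤ n)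
  have hkε' : (k : ℝ) ≤ (1 / 3 - ε') * n := by nlinarith
  have hkn : k ≤ n := by
    have : (k : ℝ) ≤ n := by nlinarith
    exact_mod_cast this
  have hq1 : 1 ≤ q := by
    rcases Nat.eq_zero_or_pos q with h0 | h0
    · rw [h0] at hq
      simp at hq
    · exact h0
  have hqR : (0 : ℝ) < q := by exact_mod_cast hq1
  set Pr := ∏ p ∈ q.primeFactors, (1 - 1 / (p : ℝ) ^ 2)⁻¹ with hPr
  -- prefixes with at least two digits
  have hlong : ∀ k : ℕ, 2 ≤ k → (k : ℝ) ≤ (1 / 3 - ε') * n → ∀ w : ℕ,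
      |(((PW n k w).filter (fun N => N ≡ a [MOD q] ∧ Squarefree N)).card : ℝ) -
      25 / (3 * Real.pi ^ 2) *
        ((((PW n k w).filter (fun N => ¬ 4 ∣ N ∧ ¬ 25 ∣ N)).card : ℝ) / (q : ℝ)) * Pr| ≤
      (10 : ℝ) ^ (n - k) / (q : ℝ) * Real.exp (-(c * Real.sqrt n)) := by
    intro k hk hkε w
    have hkn : k ≤ n := by
      have : (k : ℝ) ≤ n := by nlinarith
      exact_mod_cast this
    by_cases hw : 10 ^ (k - 1) ≤ w ∧ w < 10 ^ k
    · have h1 := h n (by omega) k hk hkε w hw.1 hw.2 q hq1 hqe hq a ha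
      have h2 : 25 / (3 * Real.pi ^ 2) *
          ((((PW n k w).filter (fun N => ¬ 4 ∣ N ∧ ¬ 25 ∣ N)).card : ℝ) / (q : ℝ)) =
          sig k w * ((10 : ℝ) ^ (n - k + 1) / (q : ℝ)) := by
        rw [← mul_div_assoc, card_good n k w hk hkn hw.1 hw.2, mul_div_assoc]
      rw [h2]
      exact h1
    · rw [pw_empty n k w (by omega) hkn hw]
      simp only [filter_empty, card_empty, Nat.cast_zero, zero_div, mul_zero, zero_mul, sub_zero,
        abs_zero]
      positivity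
  rcases le_or_gt 2 k with hk | hk
  · exact hlong k hk hkε' w
  -- short prefixes
  have e1 := card_short (fun N => N ≡ a [MOD q] ∧ Squarefree N) n k w (by omega) hk.le
  have e2 := card_short (fun N => ¬ 4 ∣ N ∧ ¬ 25 ∣ N) n k w (by omega) hk.le
  rw [e1, e2]
  push_cast
  set V := (Ico 10 100).filter (fun v => v / 10 ^ (2 - k) = w) with hV
  have e3 : 25 / (3 * Real.pi ^ 2) *
      ((∑ v ∈ V, (((PW n 2 v).filter (fun N => ¬ 4 ∣ N ∧ ¬ 25 ∣ N)).card : ℝ)) / (q : ℝ)) * Pr =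
      ∑ v ∈ V, 25 / (3 * Real.pi ^ 2) *
        ((((PW n 2 v).filter (fun N => ¬ 4 ∣ N ∧ ¬ 25 ∣ N)).card : ℝ) / (q : ℝ)) * Pr := by
    rw [Finset.sum_div, Finset.mul_sum, Finset.sum_mul]
  rw [e3, ← Finset.sum_sub_distrib]
  have h2 : ((2 : ℕ) : ℝ) ≤ (1 / 3 - ε') * n := by
    push_cast
    nlinarith
  have hsum : |∑ v ∈ V, ((((PW n 2 v).filter (fun N => N ≡ a [MOD q] ∧ Squarefree N)).card : ℝ) -
      25 / (3 * Real.pi ^ 2) *
        ((((PW n 2 v).filter (fun N => ¬ 4 ∣ N ∧ ¬ 25 ∣ N)).card : ℝ) / (q : ℝ)) * Pr)| ≤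
      (V.card : ℝ) * ((10 : ℝ) ^ (n - 2) / (q : ℝ) * Real.exp (-(c * Real.sqrt n))) := by
    refine (Finset.abs_sum_le_sum_abs _ _).trans
      ((sum_le_sum fun v _ => hlong 2 le_rfl h2 v).trans (le_of_eq ?_))
    rw [sum_const, nsmul_eq_mul]
  refine hsum.trans ?_
  have hVc : V.card ≤ 10 ^ (2 - k) := by
    have hk' : k = 0 ∨ k = 1 := by omega
    rcases hk' with rfl | rfl
    · have h3 : V.card ≤ (Ico 10 100).card := card_filter_le _ _
      rw [Nat.card_Ico] at h3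
      norm_num
      omega
    · have h3 : V ⊆ Ico (10 * w) (10 * w + 10) := by
        intro v hv
        rw [hV, mem_filter] at hv
        rw [mem_Ico]
        have := hv.2
        norm_num at this
        omega
      have h4 := card_le_card h3
      rw [Nat.card_Ico] at h4
      norm_num
      omega
  have hVR : (V.card : ℝ) ≤ (10 : ℝ) ^ (2 - k) := by exact_mod_cast hVc
  have e10 : (10 : ℝ) ^ (n - k) = (10 : ℝ) ^ (2 - k) * (10 : ℝ) ^ (n - 2) := by
    rw [← pow_add]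
    congr 1
    omega
  have h5 : 0 ≤ (10 : ℝ) ^ (n - 2) / (q : ℝ) * Real.exp (-(c * Real.sqrt n)) := by positivity
  calc (V.card : ℝ) * ((10 : ℝ) ^ (n - 2) / (q : ℝ) * Real.exp (-(c * Real.sqrt n))) ≤
        (10 : ℝ) ^ (2 - k) * ((10 : ℝ) ^ (n - 2) / (q : ℝ) * Real.exp (-(c * Real.sqrt n))) :=
        mul_le_mul_of_nonneg_right hVR h5
    _ = (10 : ℝ) ^ (n - k) / (q : ℝ) * Real.exp (-(c * Real.sqrt n)) := by
        rw [e10]
        ring

end Pool.Agent.Helper15.SI
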